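import Mathlib

/-!
# The inequalities for one prime: `t` against `2 t`
-/

set_option autoImplicit false

namespace Pool.Agent.H.MP_2e4794_nt.CE

lemma sq1 {x : ℂ} (hx : ‖x‖ = 1) (s : ℝ) :
    ‖1 - (s : ℂ) * x‖ ^ 2 = (1 + s) ^ 2 - 2 * s * (1 + x.re) := by
  have h1 : x.re * x.re + x.im * x.im = 1 := by
    rw [← Complex.normSq_apply, Complex.normSq_eq_norm_sq, hx, one_pow]
  rw [← Complex.normSq_eq_norm_sq, Complex.normSq_apply]
  simp only [Complex.sub_re, Complex.one_re, Complex.sub_im, Complex.one_im, Complex.re_ofReal_mul,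
    Complex.im_ofReal_mul]
  linear_combination (s ^ 2) * h1

lemma sq2 {x : ℂ} (hx : ‖x‖ = 1) (s : ℝ) :
    ‖1 - (s : ℂ) * x ^ 2‖ ^ 2 = (1 - s) ^ 2 + 4 * s * ((1 + x.re) * (2 - (1 + x.re))) := by
  have h1 : x.re * x.re + x.im * x.im = 1 := by
    rw [← Complex.normSq_apply, Complex.normSq_eq_norm_sq, hx, one_pow]
  rw [← Complex.normSq_eq_norm_sq, Complex.normSq_apply, pow_two]
  simp only [Complex.sub_re, Complex.one_re, Complex.sub_im, Complex.one_im, Complex.mul_re,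
    Complex.mul_im, Complex.ofReal_re, Complex.ofReal_im, zero_mul, sub_zero, add_zero]
  have h2 : x.im * x.im = 1 - x.re * x.re := by linarith
  have h3 : (1 - s * (x.re * x.re - x.im * x.im)) * (1 - s * (x.re * x.re - x.im * x.im)) +
      (0 - s * (x.re * x.im + x.im * x.re)) * (0 - s * (x.re * x.im + x.im * x.re)) =
      1 - 2 * s * (x.re * x.re - x.im * x.im) +
        s ^ 2 * (x.re * x.re + x.im * x.im) ^ 2 := by ring
  rw [h3, h1, h2]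
  ring

/-- the case of a large exponent -/
lemma key (k : ℕ) {s d : ℝ} (hs : 0 < s) (hs1 : s < 1) (hd : 0 ≤ d) (hd2 : d ≤ 2)
    (h : 4 * (1 + s) ^ 2 ≤ k * (1 - s) ^ 2) :
    ((1 - s) ^ 2 + 4 * s * (d * (2 - d))) * ((1 + s) ^ 2 - 2 * s * d) ^ k ≤
      (1 - s) ^ 2 * ((1 + s) ^ 2) ^ k := by
  have hm : 0 < (1 - s) ^ 2 := by
    have : 0 < 1 - s := by linarith
    positivity
  have hp : 0 < (1 + s) ^ 2 := by positivity
  have h1 : (1 - s) ^ 2 + 4 * s * (d * (2 - d)) ≤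
      (1 - s) ^ 2 * Real.exp (8 * s * d / (1 - s) ^ 2) := by
    have h2 := Real.add_one_le_exp (8 * s * d / (1 - s) ^ 2)
    have h3 : (1 - s) ^ 2 * (8 * s * d / (1 - s) ^ 2 + 1) = 8 * s * d + (1 - s) ^ 2 := by
      rw [mul_add, mul_div_cancel₀ _ hm.ne', mul_one]
    have h4 := mul_le_mul_of_nonneg_left h2 hm.le
    rw [h3] at h4
    have h5 : 0 ≤ s * (d * d) := by positivity
    nlinarith
  have h6 : (1 + s) ^ 2 - 2 * s * d ≤ (1 + s) ^ 2 * Real.exp (-(2 * s * d / (1 + s) ^ 2)) := by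
    have h2 := Real.add_one_le_exp (-(2 * s * d / (1 + s) ^ 2))
    have h3 : (1 + s) ^ 2 * (-(2 * s * d / (1 + s) ^ 2) + 1) = (1 + s) ^ 2 - 2 * s * d := by
      field_simp
      ring
    have h4 := mul_le_mul_of_nonneg_left h2 hp.le
    rw [h3] at h4
    exact h4
  have h7 : 0 ≤ (1 + s) ^ 2 - 2 * s * d := by nlinarith [sq_nonneg (1 - s)]
  have h8 := pow_le_pow_left₀ h7 h6 k
  rw [mul_pow, ← Real.exp_nat_mul] at h8
  have h9 : (1 - s) ^ 2 * Real.exp (8 * s * d / (1 - s) ^ 2) *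
      (((1 + s) ^ 2) ^ k * Real.exp (k * -(2 * s * d / (1 + s) ^ 2))) ≤
      (1 - s) ^ 2 * ((1 + s) ^ 2) ^ k := by
    have h10 : (1 - s) ^ 2 * Real.exp (8 * s * d / (1 - s) ^ 2) *
      (((1 + s) ^ 2) ^ k * Real.exp (k * -(2 * s * d / (1 + s) ^ 2))) =
      ((1 - s) ^ 2 * ((1 + s) ^ 2) ^ k) *
        Real.exp (8 * s * d / (1 - s) ^ 2 + k * -(2 * s * d / (1 + s) ^ 2)) := by
      rw [Real.exp_add]
      ring
    rw [h10]
    have h11 : 8 * s * d / (1 - s) ^ 2 + k * -(2 * s * d / (1 + s) ^ 2) ≤ 0 := by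
      have h12 : 8 * s * d / (1 - s) ^ 2 ≤ k * (2 * s * d / (1 + s) ^ 2) := by
        rw [mul_div_assoc', div_le_div_iff₀ hm hp]
        have h13 : 0 ≤ 2 * s * d := by positivity
        have h14 := mul_le_mul_of_nonneg_left h h13
        linarith
      linarith
    have h15 : Real.exp (8 * s * d / (1 - s) ^ 2 + k * -(2 * s * d / (1 + s) ^ 2)) ≤ 1 :=
      Real.exp_le_one_iff.2 h11
    have h16 : 0 ≤ (1 - s) ^ 2 * ((1 + s) ^ 2) ^ k := by positivity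
    calc _ ≤ ((1 - s) ^ 2 * ((1 + s) ^ 2) ^ k) * 1 := mul_le_mul_of_nonneg_left h15 h16
      _ = _ := mul_one _
  exact (mul_le_mul h1 h8 (pow_nonneg h7 k) (by positivity)).trans h9

/-- the case of one small prime: a bound by a tangent -/
lemma tan {B A B0 A0 m : ℝ} (hB0 : 0 < B0) (hA0 : 0 < A0) (hA : 0 ≤ A) (hm : 0 ≤ m)
    (hm1 : m < 1) (h : B / B0 + 10 * (A / A0) - 11 ≤ m) :
    B * A ^ 10 ≤ B0 * A0 ^ 10 * (1 / (1 - m)) := by
  have h1 : B ≤ B0 * Real.exp (B / B0 - 1) := by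
    have h2 := mul_le_mul_of_nonneg_left (Real.add_one_le_exp (B / B0 - 1)) hB0.le
    rw [sub_add_cancel, mul_div_cancel₀ _ hB0.ne'] at h2
    exact h2
  have h3 : A ≤ A0 * Real.exp (A / A0 - 1) := by
    have h2 := mul_le_mul_of_nonneg_left (Real.add_one_le_exp (A / A0 - 1)) hA0.le
    rw [sub_add_cancel, mul_div_cancel₀ _ hA0.ne'] at h2
    exact h2
  have h4 := pow_le_pow_left₀ hA h3 10
  rw [mul_pow, ← Real.exp_nat_mul] at h4
  have h5 := mul_le_mul h1 h4 (pow_nonneg hA 10) (by positivity)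
  refine h5.trans ?_
  have h6 : B0 * Real.exp (B / B0 - 1) * (A0 ^ 10 * Real.exp (((10 : ℕ) : ℝ) * (A / A0 - 1))) =
      B0 * A0 ^ 10 * Real.exp (B / B0 - 1 + ((10 : ℕ) : ℝ) * (A / A0 - 1)) := by
    rw [Real.exp_add]
    ring
  rw [h6]
  apply mul_le_mul_of_nonneg_left _ (by positivity)
  refine (Real.exp_le_exp.2 ?_).trans (Real.exp_bound_div_one_sub_of_interval hm hm1)
  push_cast
  linarith

lemma two {d : ℝ} (hd : 0 ≤ d) (hd2 : d ≤ 2) :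
    (1 + 8 * (d * (2 - d))) * (1 - 4 * d / 9) ^ 10 ≤ 16245 / 10000 := by
  have h1 := tan (B := 1 + 8 * (d * (2 - d))) (A := 1 - 4 * d / 9) (B0 := 29448 / 10000)
    (A0 := 94223 / 100000) (m := 1 / 10000) (by norm_num) (by norm_num) (by linarith)
    (by norm_num) (by norm_num) (by nlinarith [sq_nonneg (d - 13 / 100)])
  refine h1.trans ?_
  norm_num

lemma three {d : ℝ} (hd : 0 ≤ d) (hd2 : d ≤ 2) :
    (1 + 3 * (d * (2 - d))) * (1 - 3 * d / 8) ^ 10 ≤ 1078 / 1000 := by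
  have h1 := tan (B := 1 + 3 * (d * (2 - d))) (A := 1 - 3 * d / 8) (B0 := 1437 / 1000)
    (A0 := 97161 / 100000) (m := 1 / 10000) (by norm_num) (by norm_num) (by linarith)
    (by norm_num) (by norm_num) (by nlinarith [sq_nonneg (d - 757 / 10000)])
  refine h1.trans ?_
  norm_num

/-- the factor of a prime, for the exponent 10 -/
noncomputable def kap (p : ℕ) : ℝ := if p = 2 then 16245 / 10000 else if p = 3 then 1078 / 1000 else 1

lemma kap_nonneg (p : ℕ) : 0 ≤ kap p := by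
  unfold kap
  split_ifs <;> norm_num

lemma prime36 {p : ℕ} (hp : p.Prime) {d : ℝ} (hd : 0 ≤ d) (hd2 : d ≤ 2) :
    ((1 - 1 / (p : ℝ)) ^ 2 + 4 * (1 / p) * (d * (2 - d))) *
        ((1 + 1 / (p : ℝ)) ^ 2 - 2 * (1 / p) * d) ^ 36 ≤
      (1 - 1 / (p : ℝ)) ^ 2 * ((1 + 1 / (p : ℝ)) ^ 2) ^ 36 := by
  have h2 : (2 : ℝ) ≤ p := by exact_mod_cast hp.two_le
  have h3 : 1 / (p : ℝ) ≤ 1 / 2 := one_div_le_one_div_of_le (by norm_num) h2
  have h4 : 0 < 1 / (p : ℝ) := by positivity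
  apply key 36 h4 (by linarith) hd hd2
  push_cast
  nlinarith

lemma prime10 {p : ℕ} (hp : p.Prime) {d : ℝ} (hd : 0 ≤ d) (hd2 : d ≤ 2) :
    ((1 - 1 / (p : ℝ)) ^ 2 + 4 * (1 / p) * (d * (2 - d))) *
        ((1 + 1 / (p : ℝ)) ^ 2 - 2 * (1 / p) * d) ^ 10 ≤
      kap p * ((1 - 1 / (p : ℝ)) ^ 2 * ((1 + 1 / (p : ℝ)) ^ 2) ^ 10) := by
  unfold kap
  by_cases h2 : p = 2
  · subst h2
    rw [if_pos rfl]
    have h1 := two hd hd2
    have h3 : ((1 - 1 / ((2 : ℕ) : ℝ)) ^ 2 + 4 * (1 / ((2 : ℕ) : ℝ)) * (d * (2 - d))) *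
        ((1 + 1 / ((2 : ℕ) : ℝ)) ^ 2 - 2 * (1 / ((2 : ℕ) : ℝ)) * d) ^ 10 =
        ((1 + 8 * (d * (2 - d))) * (1 - 4 * d / 9) ^ 10) *
          ((1 - 1 / ((2 : ℕ) : ℝ)) ^ 2 * ((1 + 1 / ((2 : ℕ) : ℝ)) ^ 2) ^ 10) := by
      push_cast
      have e1 : ((1 : ℝ) - 1 / 2) ^ 2 + 4 * (1 / 2) * (d * (2 - d)) =
          (1 + 8 * (d * (2 - d))) * (1 - 1 / 2) ^ 2 := by ring
      have e2 : ((1 : ℝ) + 1 / 2) ^ 2 - 2 * (1 / 2) * d = (1 - 4 * d / 9) * (1 + 1 / 2) ^ 2 := by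
        ring
      rw [e1, e2, mul_pow]
      ring
    rw [h3]
    exact mul_le_mul_of_nonneg_right h1 (by positivity)
  rw [if_neg h2]
  by_cases h3 : p = 3
  · subst h3
    rw [if_pos rfl]
    have h1 := three hd hd2
    have h3 : ((1 - 1 / ((3 : ℕ) : ℝ)) ^ 2 + 4 * (1 / ((3 : ℕ) : ℝ)) * (d * (2 - d))) *
        ((1 + 1 / ((3 : ℕ) : ℝ)) ^ 2 - 2 * (1 / ((3 : ℕ) : ℝ)) * d) ^ 10 =
        ((1 + 3 * (d * (2 - d))) * (1 - 3 * d / 8) ^ 10) *
          ((1 - 1 / ((3 : ℕ) : ℝ)) ^ 2 * ((1 + 1 / ((3 : ℕ) : ℝ)) ^ 2) ^ 10) := by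
      push_cast
      have e1 : ((1 : ℝ) - 1 / 3) ^ 2 + 4 * (1 / 3) * (d * (2 - d)) =
          (1 + 3 * (d * (2 - d))) * (1 - 1 / 3) ^ 2 := by ring
      have e2 : ((1 : ℝ) + 1 / 3) ^ 2 - 2 * (1 / 3) * d = (1 - 3 * d / 8) * (1 + 1 / 3) ^ 2 := by
        ring
      rw [e1, e2, mul_pow]
      ring
    rw [h3]
    exact mul_le_mul_of_nonneg_right h1 (by positivity)
  rw [if_neg h3, one_mul]
  have h4 : 5 ≤ p := by
    have h5 := hp.two_le
    by_contra h6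
    have h7 : p = 4 := by omega
    subst h7
    exact absurd hp (by norm_num)
  have h5 : (5 : ℝ) ≤ p := by exact_mod_cast h4
  have h6 : 1 / (p : ℝ) ≤ 1 / 5 := one_div_le_one_div_of_le (by norm_num) h5
  have h7 : 0 < 1 / (p : ℝ) := by positivity
  apply key 10 h7 (by linarith) hd hd2
  push_cast
  nlinarith

end Pool.Agent.H.MP_2e4794_nt.CE
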