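import Pool.Agent.H.MP_2e4794_nt.CE.Main

/-!
# Comparison of the values on `[T0, T]` with the products, under RH
-/

set_option autoImplicit false

namespace Pool.Agent.H.MP_2e4794_nt.CE

open Finset Filter Topology
open Pool.Agent.H.MP_2e4794_nt.RL
open Pool.Agent.H.MP_2e4794_nt.ZM (prs mem_prs norm_cpow_le mertens_minus mertens_plus)

/-! ### products -/

lemma ee_add {p : ℕ} (hp : 2 ≤ p) (t u : ℝ) : ee p (t + u) = ee p t * ee p u := by
  have h0 : (p : ℂ) ≠ 0 := by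
    have : p ≠ 0 := by omega
    exact_mod_cast this
  unfold ee
  rw [← Complex.cpow_add _ _ h0]
  congr 1
  push_cast
  ring

lemma ee_neg_re {p : ℕ} (hp : 2 ≤ p) (u : ℝ) : (ee p (-u)).re = (ee p u).re := by
  have h1 : ee p (-u) = (ee p u)⁻¹ := by
    unfold ee
    rw [← Complex.cpow_neg]
    congr 1
    push_cast
    ring
  rw [h1, Complex.inv_re, Complex.normSq_eq_norm_sq, norm_ee hp, one_pow, div_one]

lemma FF_neg (Y : ℕ) (u : ℝ) : FF Y (-u) = FF Y u := by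
  unfold FF
  apply prod_congr rfl
  intro p hp
  rw [mem_prs] at hp
  have h1 := fac1 hp.2.two_le (-u)
  rw [ee_neg_re hp.2.two_le, ← fac1 hp.2.two_le u] at h1
  exact (pow_left_inj₀ (norm_nonneg _) (norm_nonneg _) two_ne_zero).1 h1

lemma FF_abs (Y : ℕ) (u : ℝ) : FF Y |u| = FF Y u := by
  rcases abs_choice u with h | h
  · rw [h]
  · rw [h, FF_neg]

lemma zeta_abs (u : ℝ) : ‖riemannZeta (1 + ((|u| : ℝ) : ℂ) * Complex.I)‖ =
    ‖riemannZeta (1 + (u : ℂ) * Complex.I)‖ := by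
  rcases abs_choice u with h | h
  · rw [h]
  · rw [h]
    have h1 : (1 + ((-u : ℝ) : ℂ) * Complex.I) =
        (starRingEnd ℂ) (1 + (u : ℂ) * Complex.I) := by
      apply Complex.ext <;> simp
    rw [h1, riemannZeta_conj, RCLike.norm_conj]

lemma prime_half {p : ℕ} (hp : p.Prime) : 0 < 1 / (p : ℝ) ∧ 1 / (p : ℝ) ≤ 1 / 2 := by
  have h2 : (2 : ℝ) ≤ p := by exact_mod_cast hp.two_le
  exact ⟨by positivity, one_div_le_one_div_of_le (by norm_num) h2⟩

/-! ### approximation on `[U0, T]` -/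

/-- **The approximation by the product on a long interval, under RH**. -/
theorem approxT (RH : RiemannHypothesis) {η : ℝ} (hη : 0 < η) (hη1 : η ≤ 1) :
    ∃ U0 : ℝ, 3 ≤ U0 ∧ ∀ᶠ T : ℝ in atTop, 1 ≤ Real.log (Real.log T) ∧
      (∀ u : ℝ, U0 ≤ u → u ≤ T → ∃ e : ℝ, Real.exp (-η) ≤ e ∧ e ≤ Real.exp η ∧
        ‖riemannZeta (1 + u * Complex.I)‖ = e * (FF (YY η T) u)⁻¹) ∧
      (gm - η) * Real.log (YY η T) ≤ (MM (YY η T))⁻¹ ∧
      (MM (YY η T))⁻¹ ≤ (gm + η) * Real.log (YY η T) ∧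
      (6 / Real.pi ^ 2 * gm - η) * Real.log (YY η T) ≤ QQ (YY η T) ∧
      QQ (YY η T) ≤ (6 / Real.pi ^ 2 * gm + η) * Real.log (YY η T) ∧
      2 * Real.log (Real.log T) ≤ Real.log (YY η T) ∧
      Real.log (YY η T) ≤ (2 + η) * (1 + η) * Real.log (Real.log T) := by
  obtain ⟨K, U0, Y0, hK, hU0, hY0, hpack⟩ := package RH hη hη1
  obtain ⟨C, hC⟩ := ev_x (δ := η) (η := η) 0 hη hη1 hη
  refine ⟨U0, hU0, ?_⟩
  have hY : Tendsto (fun t : ℝ => YY η t) atTop atTop := by
    have h1 : Tendsto (fun t : ℝ => 2 * t) atTop atTop := tendsto_id.const_mul_atTop (by norm_num)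
    exact tendsto_nat_ceil_atTop.comp (((tendsto_rpow_atTop (by linarith)).comp
      Real.tendsto_log_atTop).comp h1)
  have hlY : Tendsto (fun Y : ℕ => Real.log (Y : ℝ)) atTop atTop :=
    Real.tendsto_log_atTop.comp tendsto_natCast_atTop_atTop
  have hM1 : ∀ᶠ Y : ℕ in atTop, (gm - η) * Real.log Y ≤ (MM Y)⁻¹ := by
    filter_upwards [mertens_minus.eventually (lt_mem_nhds (sub_lt_self _ hη)),
      hlY.eventually_gt_atTop 0] with Y h1 h2
    rw [lt_div_iff₀ h2, prod_inv_distrib] at h1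
    exact h1.le
  have hM2 : ∀ᶠ Y : ℕ in atTop, (MM Y)⁻¹ ≤ (gm + η) * Real.log Y := by
    filter_upwards [mertens_minus.eventually (gt_mem_nhds (lt_add_of_pos_right _ hη)),
      hlY.eventually_gt_atTop 0] with Y h1 h2
    rw [div_lt_iff₀ h2, prod_inv_distrib] at h1
    exact h1.le
  have hQ1 : ∀ᶠ Y : ℕ in atTop, (6 / Real.pi ^ 2 * gm - η) * Real.log Y ≤ QQ Y := by
    filter_upwards [mertens_plus.eventually (lt_mem_nhds (sub_lt_self _ hη)),
      hlY.eventually_gt_atTop 0] with Y h1 h2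
    rw [lt_div_iff₀ h2] at h1
    exact h1.le
  have hQ : ∀ᶠ Y : ℕ in atTop, QQ Y ≤ (6 / Real.pi ^ 2 * gm + η) * Real.log Y := by
    filter_upwards [mertens_plus.eventually (gt_mem_nhds (lt_add_of_pos_right _ hη)),
      hlY.eventually_gt_atTop 0] with Y h1 h2
    rw [div_lt_iff₀ h2] at h1
    exact h1.le
  have hE : ∀ᶠ Y : ℕ in atTop, 2 * K / Real.sqrt (Real.log Y) ≤ η := by
    have h1 : Tendsto (fun Y : ℕ => 2 * K / Real.sqrt (Real.log (Y : ℝ))) atTop (𝓝 0) :=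
      (Real.tendsto_sqrt_atTop.comp hlY).const_div_atTop _
    exact h1.eventually_le_const hη
  filter_upwards [hY.eventually hM1, hY.eventually hM2, hY.eventually hQ, hY.eventually hQ1,
    hY.eventually hE, hY.eventually_ge_atTop (max 3 Y0), eventually_ge_atTop C,
    tendsto_loglog.eventually_ge_atTop 1, eventually_ge_atTop 3]
    with t a1 a2 a3 a3' a4 a5 a6 a8 a9
  obtain ⟨c1, c2, -⟩ := hC t a6
  have c3 : Real.log (YY η t) ≤ (2 + η) * (1 + η) * Real.log (Real.log t) := c1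
  have c4 : (2 + η) * Real.log (Real.log t) ≤ Real.log (YY η t) := c2
  refine ⟨a8, ?_, a1, a2, a3', a3, ?_, c3⟩
  · obtain ⟨w, hw, hsum, -, hz⟩ := hpack (YY η t) (YY η t) ((le_max_right _ _).trans a5) le_rfl
    have hWW : WW (YY η t) (YY η t) = 0 := by
      unfold WW
      apply sum_eq_zero
      intro p hp
      rw [mem_prs] at hp
      omega
    rw [hWW, zero_add] at hsum
    intro u hu hut
    have hlog : Real.log u ^ (2 + η) ≤ YY η t := by
      refine le_trans ?_ (Nat.le_ceil _)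
      apply Real.rpow_le_rpow (Real.log_nonneg (by linarith)) _ (by linarith)
      exact Real.log_le_log (by linarith) (by linarith)
    obtain ⟨z, hz1, hz2⟩ := hz u hu hlog
    have hV := (norm_VV hw (YY η t) u).trans hsum
    have hre : |(VV w (YY η t) (1 + u * Complex.I) + z).re| ≤ η := by
      refine (Complex.abs_re_le_norm _).trans ((norm_add_le _ _).trans ?_)
      have : K / Real.sqrt (Real.log (YY η t)) + K / Real.sqrt (Real.log (YY η t)) =
          2 * K / Real.sqrt (Real.log (YY η t)) := by ring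
      linarith
    rw [abs_le] at hre
    refine ⟨Real.exp (VV w (YY η t) (1 + u * Complex.I) + z).re, Real.exp_le_exp.2 hre.1,
      Real.exp_le_exp.2 hre.2, ?_⟩
    rw [hz2, add_assoc, Complex.norm_exp, Complex.add_re, Real.exp_add, exp_SY_re, mul_comm]
  · nlinarith

/-! ### the normalised values -/

/-- `|ζ(1+iu)| / (2 e^γ loglog T)` -/
noncomputable def AA (T u : ℝ) : ℝ :=
  ‖riemannZeta (1 + u * Complex.I)‖ / (2 * gm * Real.log (Real.log T))

/-- `(1/|ζ(1+iu)|) / (12 e^γ/π² loglog T)` -/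
noncomputable def BB (T u : ℝ) : ℝ :=
  1 / ‖riemannZeta (1 + u * Complex.I)‖ / (12 / Real.pi ^ 2 * gm * Real.log (Real.log T))

lemma choose_eta3 {δ : ℝ} (hδ : 0 < δ) : ∃ η : ℝ, 0 < η ∧ η ≤ 1 ∧
    Real.exp (-δ) * (2 * gm) ≤ Real.exp (-η) * ((gm - η) * 2) ∧
    Real.exp η * ((gm + η) * ((2 + η) * (1 + η))) ≤ Real.exp δ * (2 * gm) ∧
    Real.exp (-δ) * (12 / Real.pi ^ 2 * gm) ≤ Real.exp (-η) * ((6 / Real.pi ^ 2 * gm - η) * 2) ∧
    Real.exp η * ((6 / Real.pi ^ 2 * gm + η) * ((2 + η) * (1 + η))) ≤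
      Real.exp δ * (12 / Real.pi ^ 2 * gm) ∧ 0 < gm - η ∧ 0 < 6 / Real.pi ^ 2 * gm - η := by
  have hg := gm_pos
  have hp : 0 < 6 / Real.pi ^ 2 * gm := by positivity
  have hδ1 : Real.exp (-δ) < 1 := by
    rw [Real.exp_lt_one_iff]
    linarith
  have hδ2 : 1 < Real.exp δ := Real.one_lt_exp_iff.2 hδ
  have h1 : ContinuousAt (fun η : ℝ => Real.exp (-η) * ((gm - η) * 2)) 0 := by fun_prop
  have h2 : ContinuousAt (fun η : ℝ => Real.exp η * ((gm + η) * ((2 + η) * (1 + η)))) 0 := by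
    fun_prop
  have h3 : ContinuousAt (fun η : ℝ => Real.exp (-η) * ((6 / Real.pi ^ 2 * gm - η) * 2)) 0 := by
    fun_prop
  have h4 : ContinuousAt
      (fun η : ℝ => Real.exp η * ((6 / Real.pi ^ 2 * gm + η) * ((2 + η) * (1 + η)))) 0 := by
    fun_prop
  have e12 : 12 / Real.pi ^ 2 * gm = 6 / Real.pi ^ 2 * gm * 2 := by ring
  have g1 : Real.exp (-δ) * (2 * gm) < (fun η : ℝ => Real.exp (-η) * ((gm - η) * 2)) 0 := by
    simp only [neg_zero, Real.exp_zero, sub_zero, one_mul]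
    nlinarith
  have g2 : (fun η : ℝ => Real.exp η * ((gm + η) * ((2 + η) * (1 + η)))) 0 <
      Real.exp δ * (2 * gm) := by
    simp only [Real.exp_zero, add_zero, one_mul, mul_one]
    nlinarith
  have g3 : Real.exp (-δ) * (12 / Real.pi ^ 2 * gm) <
      (fun η : ℝ => Real.exp (-η) * ((6 / Real.pi ^ 2 * gm - η) * 2)) 0 := by
    simp only [neg_zero, Real.exp_zero, sub_zero, one_mul]
    rw [e12]
    nlinarith
  have g4 : (fun η : ℝ => Real.exp η * ((6 / Real.pi ^ 2 * gm + η) * ((2 + η) * (1 + η)))) 0 <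
      Real.exp δ * (12 / Real.pi ^ 2 * gm) := by
    simp only [Real.exp_zero, add_zero, one_mul, mul_one]
    rw [e12]
    nlinarith
  have h5 := ((h1.eventually (lt_mem_nhds g1)).and (h2.eventually (gt_mem_nhds g2))).and
    ((h3.eventually (lt_mem_nhds g3)).and (h4.eventually (gt_mem_nhds g4)))
  obtain ⟨r, hr, h6⟩ := Metric.eventually_nhds_iff.1 h5
  obtain ⟨η, hηd⟩ : ∃ η, η = min (min (r / 2) 1) (min (gm / 2) (6 / Real.pi ^ 2 * gm / 2)) :=
    ⟨_, rfl⟩
  have k1 : η ≤ r / 2 := by rw [hηd]; exact (min_le_left _ _).trans (min_le_left _ _)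
  have k2 : η ≤ 1 := by rw [hηd]; exact (min_le_left _ _).trans (min_le_right _ _)
  have k3 : η ≤ gm / 2 := by rw [hηd]; exact (min_le_right _ _).trans (min_le_left _ _)
  have k4 : η ≤ 6 / Real.pi ^ 2 * gm / 2 := by
    rw [hηd]; exact (min_le_right _ _).trans (min_le_right _ _)
  have k5 : 0 < η := by rw [hηd]; positivity
  have h7 : dist η 0 < r := by
    rw [dist_zero_right, Real.norm_of_nonneg k5.le]
    linarith
  obtain ⟨⟨m1, m2⟩, m3, m4⟩ := h6 h7
  exact ⟨η, k5, k2, m1.le, m2.le, m3.le, m4.le, by linarith, by linarith⟩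

/-- **Comparison of the normalised values with the products, under RH.** -/
theorem compare (RH : RiemannHypothesis) {δ : ℝ} (hδ : 0 < δ) :
    ∃ T0 : ℝ, 3 ≤ T0 ∧ ∀ T : ℝ, T0 ≤ T → 0 < Real.log (Real.log T) ∧ ∃ Y : ℕ,
      ∀ u : ℝ, T0 ≤ |u| → |u| ≤ T →
        Real.exp (-δ) * (MM Y / FF Y u) ≤ AA T u ∧ AA T u ≤ Real.exp δ * (MM Y / FF Y u) ∧
        Real.exp (-δ) * (FF Y u / QQ Y) ≤ BB T u ∧ BB T u ≤ Real.exp δ * (FF Y u / QQ Y) := by
  obtain ⟨η, hη, hη1, P1, P2, P3, P4, P5, P6⟩ := choose_eta3 hδ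
  obtain ⟨U0, hU0, h⟩ := approxT RH hη hη1
  obtain ⟨T1, hT1⟩ := eventually_atTop.1 h
  refine ⟨max U0 T1, hU0.trans (le_max_left _ _), fun T hT => ?_⟩
  obtain ⟨a1, a2, a3, a4, a5, a6, a7, a8⟩ := hT1 T ((le_max_right _ _).trans hT)
  refine ⟨by linarith, YY η T, fun u hu huT => ?_⟩
  obtain ⟨e, b1, b2, b3⟩ := a2 |u| ((le_max_left _ _).trans hu) huT
  rw [zeta_abs, FF_abs] at b3
  have hg := gm_pos
  have hpi : 0 < Real.pi ^ 2 := by positivity
  have hF := FF_pos (YY η T) u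
  have hM := MM_pos (YY η T)
  have hQ := QQ_pos (YY η T)
  obtain ⟨X, hX⟩ : ∃ X, X = Real.log (Real.log T) := ⟨_, rfl⟩
  obtain ⟨L, hL⟩ : ∃ L, L = Real.log (YY η T) := ⟨_, rfl⟩
  obtain ⟨F, hF'⟩ : ∃ F, F = FF (YY η T) u := ⟨_, rfl⟩
  obtain ⟨M, hM'⟩ : ∃ M, M = MM (YY η T) := ⟨_, rfl⟩
  obtain ⟨Q, hQ'⟩ : ∃ Q, Q = QQ (YY η T) := ⟨_, rfl⟩
  obtain ⟨c, hc⟩ : ∃ c, c = 6 / Real.pi ^ 2 * gm := ⟨_, rfl⟩
  have e12 : 12 / Real.pi ^ 2 * gm = 2 * c := by rw [hc]; ring
  have hc0 : 0 < c := by rw [hc]; positivity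
  unfold AA BB
  rw [b3, ← hX, ← hF', ← hM', ← hQ', e12]
  rw [← hX] at a1 a7 a8
  rw [← hL] at a3 a4 a5 a6 a7 a8
  rw [← hF'] at hF
  rw [← hM'] at hM a3 a4
  rw [← hQ'] at hQ a5 a6
  rw [← hc] at a5 a6 P3 P4 P6
  rw [e12] at P3 P4
  have hX0 : 0 < X := by linarith
  have hE := Real.exp_pos (-η)
  have hE' := Real.exp_pos η
  have he : 0 < e := hE.trans_le b1
  have hD := Real.exp_pos (-δ)
  have hD' := Real.exp_pos δ
  -- the four inequalities for `M` and `Q`
  have q1 : Real.exp (-δ) * (2 * gm) * X ≤ e * M⁻¹ := by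
    calc Real.exp (-δ) * (2 * gm) * X ≤ Real.exp (-η) * ((gm - η) * 2) * X :=
          mul_le_mul_of_nonneg_right P1 hX0.le
      _ = Real.exp (-η) * ((gm - η) * (2 * X)) := by ring
      _ ≤ e * M⁻¹ := mul_le_mul b1 ((mul_le_mul_of_nonneg_left a7 P5.le).trans a3)
          (by positivity) he.le
  have q2 : e * M⁻¹ ≤ Real.exp δ * (2 * gm) * X := by
    calc e * M⁻¹ ≤ Real.exp η * ((gm + η) * ((2 + η) * (1 + η) * X)) :=
          mul_le_mul b2 (a4.trans (mul_le_mul_of_nonneg_left a8 (by positivity)))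
            (by positivity) hE'.le
      _ = Real.exp η * ((gm + η) * ((2 + η) * (1 + η))) * X := by ring
      _ ≤ _ := mul_le_mul_of_nonneg_right P2 hX0.le
  have q3 : Real.exp (-δ) * (2 * c) * X * e ≤ Q := by
    calc Real.exp (-δ) * (2 * c) * X * e ≤ Real.exp (-η) * ((c - η) * 2) * X * e := by
          apply mul_le_mul_of_nonneg_right _ he.le
          exact mul_le_mul_of_nonneg_right P3 hX0.le
      _ = (Real.exp (-η) * e) * ((c - η) * (2 * X)) := by ring
      _ ≤ 1 * ((c - η) * (2 * X)) := by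
          apply mul_le_mul_of_nonneg_right _ (by positivity)
          calc Real.exp (-η) * e ≤ Real.exp (-η) * Real.exp η :=
                mul_le_mul_of_nonneg_left b2 hE.le
            _ = 1 := by rw [← Real.exp_add, neg_add_cancel, Real.exp_zero]
      _ ≤ Q := by
          rw [one_mul]
          exact (mul_le_mul_of_nonneg_left a7 P6.le).trans a5
  have q4 : Q ≤ Real.exp δ * (2 * c) * X * e := by
    calc Q ≤ (c + η) * ((2 + η) * (1 + η) * X) :=
          a6.trans (mul_le_mul_of_nonneg_left a8 (by positivity))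
      _ = 1 * ((c + η) * ((2 + η) * (1 + η)) * X) := by ring
      _ ≤ (Real.exp η * e) * ((c + η) * ((2 + η) * (1 + η)) * X) := by
          apply mul_le_mul_of_nonneg_right _ (by positivity)
          calc (1 : ℝ) = Real.exp η * Real.exp (-η) := by
                rw [← Real.exp_add, add_neg_cancel, Real.exp_zero]
            _ ≤ Real.exp η * e := mul_le_mul_of_nonneg_left b1 hE'.le
      _ = Real.exp η * ((c + η) * ((2 + η) * (1 + η))) * (X * e) := by ring
      _ ≤ Real.exp δ * (2 * c) * (X * e) := mul_le_mul_of_nonneg_right P4 (by positivity)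
      _ = _ := by ring
  refine ⟨?_, ?_, ?_, ?_⟩
  · rw [le_div_iff₀ (by positivity)]
    calc Real.exp (-δ) * (M / F) * (2 * gm * X) = (Real.exp (-δ) * (2 * gm) * X) * (M / F) := by
          ring
      _ ≤ (e * M⁻¹) * (M / F) := mul_le_mul_of_nonneg_right q1 (by positivity)
      _ = e * F⁻¹ := by field_simp
  · rw [div_le_iff₀ (by positivity)]
    calc e * F⁻¹ = (e * M⁻¹) * (M / F) := by field_simp
      _ ≤ (Real.exp δ * (2 * gm) * X) * (M / F) := mul_le_mul_of_nonneg_right q2 (by positivity)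
      _ = _ := by ring
  · rw [le_div_iff₀ (by positivity), le_div_iff₀ (by positivity)]
    calc Real.exp (-δ) * (F / Q) * (2 * c * X) * (e * F⁻¹) =
        (Real.exp (-δ) * (2 * c) * X * e) * (F / Q * F⁻¹) := by ring
      _ ≤ Q * (F / Q * F⁻¹) := mul_le_mul_of_nonneg_right q3 (by positivity)
      _ = 1 := by field_simp
  · rw [div_le_iff₀ (by positivity), div_le_iff₀ (by positivity)]
    calc (1 : ℝ) = Q * (F / Q * F⁻¹) := by field_simp
      _ ≤ (Real.exp δ * (2 * c) * X * e) * (F / Q * F⁻¹) :=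
          mul_le_mul_of_nonneg_right q4 (by positivity)
      _ = _ := by ring

end Pool.Agent.H.MP_2e4794_nt.CE
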