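import Pool.Agent.H.MP_2e4794_nt.CE.Main

/-!
# The upper limits
-/

set_option autoImplicit false

namespace Pool.Agent.H.MP_2e4794_nt.CE

open Finset Filter Topology
open Pool.Agent.H.MP_2e4794_nt.RL

/-- the quotient for `ζ` -/
noncomputable def fp (t : ℝ) : ℝ := ‖riemannZeta (1 + t * Complex.I)‖ / Real.log (Real.log t)

/-- the quotient for `1/ζ` -/
noncomputable def fm (t : ℝ) : ℝ := 1 / ‖riemannZeta (1 + t * Complex.I)‖ / Real.log (Real.log t)

lemma choose_eta2 {ε : ℝ} (hε : 0 < ε) : ∃ η : ℝ, 0 < η ∧ η ≤ 1 ∧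
    Real.exp η * ((gm + η) * ((2 + η) * (1 + η))) ≤ 2 * gm + ε ∧
    Real.exp η * ((6 / Real.pi ^ 2 * gm + η) * ((2 + η) * (1 + η))) ≤ 12 / Real.pi ^ 2 * gm + ε := by
  have h1 : ContinuousAt (fun η : ℝ => Real.exp η * ((gm + η) * ((2 + η) * (1 + η)))) 0 := by
    fun_prop
  have h2 : ContinuousAt
      (fun η : ℝ => Real.exp η * ((6 / Real.pi ^ 2 * gm + η) * ((2 + η) * (1 + η)))) 0 := by
    fun_prop
  have h3 : (fun η : ℝ => Real.exp η * ((gm + η) * ((2 + η) * (1 + η)))) 0 < 2 * gm + ε := by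
    simp only [Real.exp_zero, add_zero, one_mul, mul_one]
    linarith
  have h4 : (fun η : ℝ => Real.exp η * ((6 / Real.pi ^ 2 * gm + η) * ((2 + η) * (1 + η)))) 0 <
      12 / Real.pi ^ 2 * gm + ε := by
    simp only [Real.exp_zero, add_zero, one_mul, mul_one]
    have : 6 / Real.pi ^ 2 * gm * 2 = 12 / Real.pi ^ 2 * gm := by ring
    linarith
  have h5 := (h1.eventually (gt_mem_nhds h3)).and (h2.eventually (gt_mem_nhds h4))
  obtain ⟨δ, hδ, h6⟩ := Metric.eventually_nhds_iff.1 h5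
  have h7 : dist (min (δ / 2) 1) 0 < δ := by
    rw [dist_zero_right, Real.norm_of_nonneg (by positivity)]
    exact (min_le_left _ _).trans_lt (by linarith)
  exact ⟨min (δ / 2) 1, by positivity, min_le_right _ _, (h6 h7).1.le, (h6 h7).2.le⟩

/-- **The known upper bounds, under RH.** -/
theorem upper (RH : RiemannHypothesis) {ε : ℝ} (hε : 0 < ε) : ∀ᶠ t : ℝ in atTop,
    0 ≤ fp t ∧ 0 ≤ fm t ∧ fp t ≤ 2 * gm + ε ∧ fm t ≤ 12 / Real.pi ^ 2 * gm + ε := by
  obtain ⟨η, hη, hη1, hA, hB⟩ := choose_eta2 hε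
  filter_upwards [approx RH hη hη1] with t ht
  obtain ⟨a1, a2, a3, -, a4, a5, a6, a7⟩ := ht
  obtain ⟨e, b1, b2, b3⟩ := a3 t (Or.inl rfl)
  have hg := gm_pos
  have hX : 0 < Real.log (Real.log t) := by linarith
  have hF := FF_pos (YY η t) t
  have hE := Real.exp_pos (-η)
  have he : 0 < e := hE.trans_le b1
  have hsy := SY_bounds (YY η t) (s := 1 + t * Complex.I) (by simp)
  rw [Real.exp_neg, exp_SY_re, inv_inv, prod_inv_distrib] at hsy
  have h1 : (FF (YY η t) t)⁻¹ ≤ (MM (YY η t))⁻¹ := hsy.1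
  have h2 : FF (YY η t) t ≤ QQ (YY η t) := hsy.2
  refine ⟨by unfold fp; positivity, by unfold fm; positivity, ?_, ?_⟩
  · unfold fp
    rw [div_le_iff₀ hX, b3]
    have h3 : (MM (YY η t))⁻¹ ≤ (gm + η) * ((2 + η) * (1 + η) * Real.log (Real.log t)) :=
      a4.trans (mul_le_mul_of_nonneg_left a7 (by positivity))
    calc e * (FF (YY η t) t)⁻¹ ≤
        Real.exp η * ((gm + η) * ((2 + η) * (1 + η) * Real.log (Real.log t))) :=
          mul_le_mul b2 (h1.trans h3) (by positivity) (by positivity)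
      _ = (Real.exp η * ((gm + η) * ((2 + η) * (1 + η)))) * Real.log (Real.log t) := by ring
      _ ≤ _ := mul_le_mul_of_nonneg_right hA hX.le
  · unfold fm
    rw [div_le_iff₀ hX, b3, one_div, mul_inv, inv_inv]
    have h3 : QQ (YY η t) ≤ (6 / Real.pi ^ 2 * gm + η) *
        ((2 + η) * (1 + η) * Real.log (Real.log t)) :=
      a5.trans (mul_le_mul_of_nonneg_left a7 (by positivity))
    have h4 : e⁻¹ ≤ Real.exp η := by
      rw [inv_le_comm₀ he (Real.exp_pos _), ← Real.exp_neg]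
      exact b1
    calc e⁻¹ * FF (YY η t) t ≤ Real.exp η * ((6 / Real.pi ^ 2 * gm + η) *
          ((2 + η) * (1 + η) * Real.log (Real.log t))) :=
          mul_le_mul h4 (h2.trans h3) hF.le (by positivity)
      _ = (Real.exp η * ((6 / Real.pi ^ 2 * gm + η) * ((2 + η) * (1 + η)))) *
          Real.log (Real.log t) := by ring
      _ ≤ _ := mul_le_mul_of_nonneg_right hB hX.le

lemma bdd_fp (RH : RiemannHypothesis) : IsBoundedUnder (· ≤ ·) atTop fp :=
  ⟨2 * gm + 1, by
    rw [eventually_map]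
    filter_upwards [upper RH one_pos] with t ht
    exact ht.2.2.1⟩

lemma bdd_fm (RH : RiemannHypothesis) : IsBoundedUnder (· ≤ ·) atTop fm :=
  ⟨12 / Real.pi ^ 2 * gm + 1, by
    rw [eventually_map]
    filter_upwards [upper RH one_pos] with t ht
    exact ht.2.2.2⟩

lemma cob_fp (RH : RiemannHypothesis) : IsCoboundedUnder (· ≤ ·) atTop fp := by
  apply IsBoundedUnder.isCoboundedUnder_le
  refine ⟨0, ?_⟩
  rw [eventually_map]
  filter_upwards [upper RH one_pos] with t ht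
  exact ht.1

lemma cob_fm (RH : RiemannHypothesis) : IsCoboundedUnder (· ≤ ·) atTop fm := by
  apply IsBoundedUnder.isCoboundedUnder_le
  refine ⟨0, ?_⟩
  rw [eventually_map]
  filter_upwards [upper RH one_pos] with t ht
  exact ht.2.1

theorem Lp_nonneg (RH : RiemannHypothesis) : 0 ≤ limsup fp atTop := by
  apply le_limsup_of_frequently_le _ (bdd_fp RH)
  apply Eventually.frequently
  filter_upwards [upper RH one_pos] with t ht
  exact ht.1

theorem Lm_nonneg (RH : RiemannHypothesis) : 0 ≤ limsup fm atTop := by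
  apply le_limsup_of_frequently_le _ (bdd_fm RH)
  apply Eventually.frequently
  filter_upwards [upper RH one_pos] with t ht
  exact ht.2.1

theorem Lp_le (RH : RiemannHypothesis) : limsup fp atTop ≤ 2 * gm := by
  apply le_of_forall_pos_le_add
  intro ε hε
  apply limsup_le_of_le (cob_fp RH)
  filter_upwards [upper RH hε] with t ht
  exact ht.2.2.1

theorem Lm_le (RH : RiemannHypothesis) : limsup fm atTop ≤ 12 / Real.pi ^ 2 * gm := by
  apply le_of_forall_pos_le_add
  intro ε hε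
  apply limsup_le_of_le (cob_fm RH)
  filter_upwards [upper RH hε] with t ht
  exact ht.2.2.2

lemma loglog_two {δ : ℝ} (hδ : 0 < δ) : ∀ᶠ t : ℝ in atTop, 0 < Real.log (Real.log t) ∧
    0 < Real.log (Real.log (2 * t)) ∧
    Real.log (Real.log (2 * t)) ≤ (1 + δ) * Real.log (Real.log t) := by
  filter_upwards [tendsto_loglog.eventually_ge_atTop (max 1 (Real.log 2 / δ)),
    eventually_ge_atTop 3] with t h1 h2
  have h3 : 1 ≤ Real.log (Real.log t) := (le_max_left _ _).trans h1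
  have h4 : Real.log 2 / δ ≤ Real.log (Real.log t) := (le_max_right _ _).trans h1
  have h5 : 0 < Real.log t := Real.log_pos (by linarith)
  have h6 : Real.log (2 * t) ≤ 2 * Real.log t := by
    rw [Real.log_mul (by norm_num) (by linarith)]
    have := Real.log_le_log (by norm_num) (show (2 : ℝ) ≤ t by linarith)
    linarith
  have h7 : Real.log t ≤ Real.log (2 * t) := Real.log_le_log (by linarith) (by linarith)
  have h8 := Real.log_le_log h5 h7
  have h9 := Real.log_le_log (h5.trans_le h7) h6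
  rw [Real.log_mul (by norm_num) h5.ne'] at h9
  rw [div_le_iff₀ hδ] at h4
  refine ⟨by linarith, by linarith, by linarith⟩

/-- **The relation between the two upper limits.** -/
theorem rel (RH : RiemannHypothesis) {k : ℕ} (hk : k ≠ 0) {c : ℝ} (hc : 0 < c)
    (hprod : ∀ Y : ℕ, 3 ≤ Y → ∀ t : ℝ, FF Y (2 * t) * FF Y t ^ k ≤ c * (MM Y * QQ Y ^ k)) :
    2 / c * gm * (Real.pi ^ 2 * limsup fm atTop / (12 * gm)) ^ k ≤ limsup fp atTop := by
  have hg := gm_pos
  have hpi : 0 < Real.pi ^ 2 := by positivity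
  rcases (Lm_nonneg RH).eq_or_lt with h0 | h0
  · rw [← h0, mul_zero, zero_div, zero_pow hk, mul_zero]
    exact Lp_nonneg RH
  obtain ⟨Lm, hLm⟩ : ∃ Lm, Lm = limsup fm atTop := ⟨_, rfl⟩
  rw [← hLm] at h0 ⊢
  have h1 : Tendsto (fun δ : ℝ => (2 / c - δ) / (1 + δ) * gm *
      (Real.pi ^ 2 * (Lm - δ) / (12 * gm)) ^ k) (𝓝[>] 0)
      (𝓝 (2 / c * gm * (Real.pi ^ 2 * Lm / (12 * gm)) ^ k)) := by
    have h2 : ContinuousAt (fun δ : ℝ => (2 / c - δ) / (1 + δ) * gm *
      (Real.pi ^ 2 * (Lm - δ) / (12 * gm)) ^ k) 0 := by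
      have h3 : (1 : ℝ) + 0 ≠ 0 := by norm_num
      have c1 : ContinuousAt (fun δ : ℝ => 2 / c - δ) 0 := by fun_prop
      have c2 : ContinuousAt (fun δ : ℝ => 1 + δ) 0 := by fun_prop
      have c3 : ContinuousAt (fun δ : ℝ => (Real.pi ^ 2 * (Lm - δ) / (12 * gm)) ^ k) 0 := by
        fun_prop
      exact ((c1.div c2 h3).mul continuousAt_const).mul c3
    have h4 := h2.tendsto.mono_left (nhdsWithin_le_nhds (s := Set.Ioi 0))
    simpa using h4
  apply le_of_tendsto h1
  have h5 : ∀ᶠ δ : ℝ in 𝓝[>] 0, δ < min Lm (2 / c) :=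
    nhdsWithin_le_nhds (gt_mem_nhds (by positivity))
  filter_upwards [h5, self_mem_nhdsWithin] with δ hδ1 hδ0
  have hδ : 0 < δ := hδ0
  have hδL : δ < Lm := hδ1.trans_le (min_le_left _ _)
  have hδc : δ < 2 / c := hδ1.trans_le (min_le_right _ _)
  have hθ : (2 / c - δ) * c < 2 := by
    rw [sub_mul, div_mul_cancel₀ _ hc.ne']
    have : 0 < δ * c := by positivity
    linarith
  have hfr : ∃ᶠ t : ℝ in atTop, Lm - δ < fm t :=
    frequently_lt_of_lt_limsup (cob_fm RH) (by rw [← hLm]; linarith)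
  have hfr2 : ∃ᶠ t : ℝ in atTop, (2 / c - δ) / (1 + δ) * gm *
      (Real.pi ^ 2 * (Lm - δ) / (12 * gm)) ^ k ≤ fp (2 * t) := by
    refine (hfr.and_eventually ((pointwise RH k hc hprod hθ).and (loglog_two hδ))).mono ?_
    rintro t ⟨b1, b2, b3, b4, b5⟩
    obtain ⟨X, hX⟩ : ∃ X, X = Real.log (Real.log t) := ⟨_, rfl⟩
    obtain ⟨Z, hZ⟩ : ∃ Z, Z = ‖riemannZeta (1 + t * Complex.I)‖ := ⟨_, rfl⟩
    unfold fm at b1
    rw [← hX, ← hZ] at b1
    rw [← hX, ← hZ] at b2
    rw [← hX] at b3 b5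
    unfold fp
    rw [le_div_iff₀ b4]
    refine le_trans ?_ b2
    have h6 : (Real.pi ^ 2 * (Lm - δ) / (12 * gm)) ^ k ≤
        (Real.pi ^ 2 / (12 * gm * (Z * X))) ^ k := by
      apply pow_le_pow_left₀
      · have : 0 ≤ Lm - δ := by linarith
        positivity
      · have h7 : Real.pi ^ 2 / (12 * gm * (Z * X)) = Real.pi ^ 2 * (1 / Z / X) / (12 * gm) := by
          rw [div_div 1 Z X, mul_one_div, div_div, mul_comm (Z * X)]
        rw [h7]
        apply div_le_div_of_nonneg_right _ (by positivity)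
        exact mul_le_mul_of_nonneg_left b1.le hpi.le
    have h8 : 0 ≤ (Real.pi ^ 2 * (Lm - δ) / (12 * gm)) ^ k := by
      have : 0 ≤ Lm - δ := by linarith
      positivity
    have h9 : (2 / c - δ) / (1 + δ) * Real.log (Real.log (2 * t)) ≤ (2 / c - δ) * X := by
      rw [div_mul_eq_mul_div, div_le_iff₀ (by linarith)]
      have h10 := mul_le_mul_of_nonneg_left b5 (show 0 ≤ 2 / c - δ by linarith)
      linarith
    calc (2 / c - δ) / (1 + δ) * gm * (Real.pi ^ 2 * (Lm - δ) / (12 * gm)) ^ k *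
          Real.log (Real.log (2 * t)) =
        ((2 / c - δ) / (1 + δ) * Real.log (Real.log (2 * t))) *
          (gm * (Real.pi ^ 2 * (Lm - δ) / (12 * gm)) ^ k) := by ring
      _ ≤ ((2 / c - δ) * X) * (gm * (Real.pi ^ 2 * (Lm - δ) / (12 * gm)) ^ k) :=
          mul_le_mul_of_nonneg_right h9 (by positivity)
      _ = ((2 / c - δ) * gm * X) * (Real.pi ^ 2 * (Lm - δ) / (12 * gm)) ^ k := by ring
      _ ≤ _ := by
          apply mul_le_mul_of_nonneg_left h6
          have : 0 ≤ 2 / c - δ := by linarith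
          positivity
  have h2t : Tendsto (fun t : ℝ => 2 * t) atTop atTop :=
    tendsto_id.const_mul_atTop (by norm_num)
  exact le_limsup_of_frequently_le (h2t.frequently hfr2) (bdd_fp RH)

end Pool.Agent.H.MP_2e4794_nt.CE
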