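import Pool.Agent.H.MP_2e4794_nt.CE.Pt

/-!
# The zeta function at `1 + i t` and at `1 + 2 i t`, under RH
-/

set_option autoImplicit false

namespace Pool.Agent.H.MP_2e4794_nt.CE

open Finset Filter Topology
open Pool.Agent.H.MP_2e4794_nt.RL
open Pool.Agent.H.MP_2e4794_nt.ZM (prs mem_prs norm_cpow_le mertens_minus mertens_plus)

/-- Euler's constant, exponentiated -/
noncomputable def gm : ℝ := Real.exp Real.eulerMascheroniConstant

lemma gm_pos : 0 < gm := Real.exp_pos _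

/-- the length of the products -/
noncomputable def YY (η t : ℝ) : ℕ := ⌈Real.log (2 * t) ^ (2 + η)⌉₊

lemma norm_VV {w : ℕ → ℝ} (hw : ∀ p, 0 ≤ w p) (y : ℕ) (t : ℝ) :
    ‖VV w y (1 + t * Complex.I)‖ ≤ ∑ p ∈ prs 0 y, w p * (1 / (p : ℝ)) := by
  rw [VV_eq]
  apply norm_sum_le_of_le
  intro p hp
  rw [mem_prs] at hp
  rw [norm_mul, norm_ee hp.2.two_le, mul_one, Complex.norm_real, Real.norm_of_nonneg]
  exact mul_nonneg (hw p) (by positivity)

/-- **The approximation by the product, under RH**, with the estimates of Mertens. -/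
theorem approx (RH : RiemannHypothesis) {η : ℝ} (hη : 0 < η) (hη1 : η ≤ 1) :
    ∀ᶠ t : ℝ in atTop, 3 ≤ YY η t ∧ 1 ≤ Real.log (Real.log t) ∧
      (∀ u : ℝ, u = t ∨ u = 2 * t → ∃ e : ℝ, Real.exp (-η) ≤ e ∧ e ≤ Real.exp η ∧
        ‖riemannZeta (1 + u * Complex.I)‖ = e * (FF (YY η t) u)⁻¹) ∧
      (gm - η) * Real.log (YY η t) ≤ (MM (YY η t))⁻¹ ∧
      (MM (YY η t))⁻¹ ≤ (gm + η) * Real.log (YY η t) ∧
      QQ (YY η t) ≤ (6 / Real.pi ^ 2 * gm + η) * Real.log (YY η t) ∧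
      2 * Real.log (Real.log t) ≤ Real.log (YY η t) ∧
      Real.log (YY η t) ≤ (2 + η) * (1 + η) * Real.log (Real.log t) := by
  obtain ⟨K, U0, Y0, hK, hU0, hY0, hpack⟩ := package RH hη hη1
  obtain ⟨C, hC⟩ := ev_x (δ := η) (η := η) 0 hη hη1 hη
  have hY : Tendsto (fun t : ℝ => YY η t) atTop atTop := by
    have h1 : Tendsto (fun t : ℝ => 2 * t) atTop atTop := tendsto_id.const_mul_atTop (by norm_num)
    exact tendsto_nat_ceil_atTop.comp (((tendsto_rpow_atTop (by linarith)).comp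
      Real.tendsto_log_atTop).comp h1)
  have hlY : Tendsto (fun Y : ℕ => Real.log (Y : ℝ)) atTop atTop :=
    Real.tendsto_log_atTop.comp tendsto_natCast_atTop_atTop
  have hM1 : ∀ᶠ Y : ℕ in atTop, (gm - η) * Real.log Y ≤ (MM Y)⁻¹ := by
    filter_upwards [mertens_minus.eventually (lt_mem_nhds (sub_lt_self _ hη)),
      hlY.eventually_gt_atTop 0] with Y h1 h2
    rw [lt_div_iff₀ h2, prod_inv_distrib] at h1
    exact h1.le
  have hM2 : ∀ᶠ Y : ℕ in atTop, (MM Y)⁻¹ ≤ (gm + η) * Real.log Y := by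
    filter_upwards [mertens_minus.eventually (gt_mem_nhds (lt_add_of_pos_right _ hη)),
      hlY.eventually_gt_atTop 0] with Y h1 h2
    rw [div_lt_iff₀ h2, prod_inv_distrib] at h1
    exact h1.le
  have hQ : ∀ᶠ Y : ℕ in atTop, QQ Y ≤ (6 / Real.pi ^ 2 * gm + η) * Real.log Y := by
    filter_upwards [mertens_plus.eventually (gt_mem_nhds (lt_add_of_pos_right _ hη)),
      hlY.eventually_gt_atTop 0] with Y h1 h2
    rw [div_lt_iff₀ h2] at h1
    exact h1.le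
  have hE : ∀ᶠ Y : ℕ in atTop, 2 * K / Real.sqrt (Real.log Y) ≤ η := by
    have h1 : Tendsto (fun Y : ℕ => 2 * K / Real.sqrt (Real.log (Y : ℝ))) atTop (𝓝 0) :=
      (Real.tendsto_sqrt_atTop.comp hlY).const_div_atTop _
    exact h1.eventually_le_const hη
  filter_upwards [hY.eventually hM1, hY.eventually hM2, hY.eventually hQ, hY.eventually hE,
    hY.eventually_ge_atTop (max 3 Y0), eventually_ge_atTop C, eventually_ge_atTop U0,
    tendsto_loglog.eventually_ge_atTop 1, eventually_ge_atTop 3]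
    with t a1 a2 a3 a4 a5 a6 a7 a8 a9
  obtain ⟨c1, c2, -⟩ := hC t a6
  have c3 : Real.log (YY η t) ≤ (2 + η) * (1 + η) * Real.log (Real.log t) := c1
  have c4 : (2 + η) * Real.log (Real.log t) ≤ Real.log (YY η t) := c2
  refine ⟨(le_max_left _ _).trans a5, a8, ?_, a1, a2, a3, ?_, c3⟩
  · obtain ⟨w, hw, hsum, -, hz⟩ := hpack (YY η t) (YY η t) ((le_max_right _ _).trans a5) le_rfl
    have hWW : WW (YY η t) (YY η t) = 0 := by
      unfold WW
      apply sum_eq_zero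
      intro p hp
      rw [mem_prs] at hp
      omega
    rw [hWW, zero_add] at hsum
    intro u hu
    have hut : t ≤ u ∧ u ≤ 2 * t := by rcases hu with rfl | rfl <;> constructor <;> linarith
    have hlog : Real.log u ^ (2 + η) ≤ YY η t := by
      refine le_trans ?_ (Nat.le_ceil _)
      apply Real.rpow_le_rpow (Real.log_nonneg (by linarith)) _ (by linarith)
      exact Real.log_le_log (by linarith) hut.2
    obtain ⟨z, hz1, hz2⟩ := hz u (by linarith) hlog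
    have hV := (norm_VV hw (YY η t) u).trans hsum
    have hre : |(VV w (YY η t) (1 + u * Complex.I) + z).re| ≤ η := by
      refine (Complex.abs_re_le_norm _).trans ((norm_add_le _ _).trans ?_)
      have : K / Real.sqrt (Real.log (YY η t)) + K / Real.sqrt (Real.log (YY η t)) =
          2 * K / Real.sqrt (Real.log (YY η t)) := by ring
      linarith
    rw [abs_le] at hre
    refine ⟨Real.exp (VV w (YY η t) (1 + u * Complex.I) + z).re, Real.exp_le_exp.2 hre.1,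
      Real.exp_le_exp.2 hre.2, ?_⟩
    rw [hz2, add_assoc, Complex.norm_exp, Complex.add_re, Real.exp_add, exp_SY_re, mul_comm]
  · nlinarith

/-- the choice of the small number -/
lemma choose_eta (k : ℕ) {c θ : ℝ} (hc : 0 < c) (hθ : θ * c < 2) :
    ∃ η : ℝ, 0 < η ∧ η ≤ 1 ∧ η < gm ∧
      θ * gm * (Real.pi ^ 2 / (12 * gm)) ^ k ≤
        Real.exp (-η) * c⁻¹ * (gm - η) * 2 *
          (Real.exp (-η) / ((6 / Real.pi ^ 2 * gm + η) * ((2 + η) * (1 + η)))) ^ k := by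
  have hg := gm_pos
  have hpi : 0 < Real.pi ^ 2 := by positivity
  have h2 : (6 / Real.pi ^ 2 * gm + 0) * ((2 + 0) * (1 + 0)) ≠ 0 := by positivity
  have hc1 : ContinuousAt (fun η : ℝ => Real.exp (-η) * c⁻¹ * (gm - η) * 2) 0 := by fun_prop
  have hc2 : ContinuousAt (fun η : ℝ => Real.exp (-η)) 0 := by fun_prop
  have hc3 : ContinuousAt (fun η : ℝ => (6 / Real.pi ^ 2 * gm + η) * ((2 + η) * (1 + η))) 0 := by
    fun_prop
  have h1 : ContinuousAt (fun η : ℝ => Real.exp (-η) * c⁻¹ * (gm - η) * 2 *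
      (Real.exp (-η) / ((6 / Real.pi ^ 2 * gm + η) * ((2 + η) * (1 + η)))) ^ k) 0 :=
    hc1.mul ((hc2.div hc3 h2).pow k)
  have h3 : θ * gm * (Real.pi ^ 2 / (12 * gm)) ^ k <
      (fun η : ℝ => Real.exp (-η) * c⁻¹ * (gm - η) * 2 *
      (Real.exp (-η) / ((6 / Real.pi ^ 2 * gm + η) * ((2 + η) * (1 + η)))) ^ k) 0 := by
    simp only [neg_zero, Real.exp_zero, add_zero, sub_zero, mul_one, one_mul]
    have h4 : 1 / (6 / Real.pi ^ 2 * gm * 2) = Real.pi ^ 2 / (12 * gm) := by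
      field_simp
      ring
    rw [h4]
    apply mul_lt_mul_of_pos_right _ (by positivity)
    have h5 : θ < c⁻¹ * 2 := by
      rw [inv_mul_eq_div, lt_div_iff₀ hc]
      exact hθ
    nlinarith
  have h6 := h1.eventually (lt_mem_nhds h3)
  obtain ⟨δ, hδ, h7⟩ := Metric.eventually_nhds_iff.1 h6
  refine ⟨min (δ / 2) (min 1 (gm / 2)), by positivity, ?_, ?_, ?_⟩
  · exact (min_le_right _ _).trans (min_le_left _ _)
  · exact ((min_le_right _ _).trans (min_le_right _ _)).trans_lt (by linarith)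
  · apply le_of_lt
    apply h7
    rw [dist_zero_right, Real.norm_of_nonneg (by positivity)]
    exact (min_le_left _ _).trans_lt (by linarith)

/-- **The pointwise inequality.** -/
theorem pointwise (RH : RiemannHypothesis) (k : ℕ) {c : ℝ} (hc : 0 < c)
    (hprod : ∀ Y : ℕ, 3 ≤ Y → ∀ t : ℝ, FF Y (2 * t) * FF Y t ^ k ≤ c * (MM Y * QQ Y ^ k))
    {θ : ℝ} (hθ : θ * c < 2) :
    ∀ᶠ t : ℝ in atTop, θ * gm * Real.log (Real.log t) *
      (Real.pi ^ 2 / (12 * gm * (‖riemannZeta (1 + t * Complex.I)‖ * Real.log (Real.log t)))) ^ k ≤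
        ‖riemannZeta (1 + ((2 * t : ℝ) : ℂ) * Complex.I)‖ := by
  obtain ⟨η, hη, hη1, hηg, hφ⟩ := choose_eta k hc hθ
  filter_upwards [approx RH hη hη1] with t ht
  obtain ⟨a1, a2, a3, a4, -, a5, a6, a7⟩ := ht
  obtain ⟨e1, b1, b2, b3⟩ := a3 t (Or.inl rfl)
  obtain ⟨e2, d1, d2, d3⟩ := a3 (2 * t) (Or.inr rfl)
  obtain ⟨X, hX⟩ : ∃ X, X = Real.log (Real.log t) := ⟨_, rfl⟩
  rw [← hX] at a2 a6 a7 ⊢
  obtain ⟨L, hL⟩ : ∃ L, L = Real.log (YY η t) := ⟨_, rfl⟩
  rw [← hL] at a4 a5 a6 a7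
  have hp := hprod (YY η t) a1 t
  have hF1 := FF_pos (YY η t) t
  have hF2 := FF_pos (YY η t) (2 * t)
  have hM := MM_pos (YY η t)
  have hQ := QQ_pos (YY η t)
  obtain ⟨F1, hF1'⟩ : ∃ F1, F1 = FF (YY η t) t := ⟨_, rfl⟩
  obtain ⟨F2, hF2'⟩ : ∃ F2, F2 = FF (YY η t) (2 * t) := ⟨_, rfl⟩
  obtain ⟨M, hM'⟩ : ∃ M, M = MM (YY η t) := ⟨_, rfl⟩
  obtain ⟨Q, hQ'⟩ : ∃ Q, Q = QQ (YY η t) := ⟨_, rfl⟩
  rw [← hM'] at a4 hp hM
  rw [← hQ'] at a5 hp hQ
  rw [← hF1'] at b3 hp hF1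
  rw [← hF2'] at d3 hp hF2
  rw [d3, b3]
  have hE := Real.exp_pos (-η)
  have he1 : 0 < e1 := hE.trans_le b1
  have he2 : 0 < e2 := hE.trans_le d1
  have hX0 : 0 < X := by linarith
  have hg := gm_pos
  have hpi : 0 < Real.pi ^ 2 := by positivity
  obtain ⟨b, hb⟩ : ∃ b, b = 6 / Real.pi ^ 2 * gm + η := ⟨_, rfl⟩
  have hb0 : 0 < b := by rw [hb]; positivity
  rw [← hb] at a5 hφ
  have hL0 : 0 < L := by linarith
  -- the lower bound for `F1 / Q`
  have h1 : Real.exp (-η) / (e1 * F1⁻¹ * X * (b * ((2 + η) * (1 + η)))) ≤ F1 / Q := by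
    rw [div_le_div_iff₀ (by positivity) hQ]
    have h2 : Q ≤ b * ((2 + η) * (1 + η) * X) :=
      a5.trans (mul_le_mul_of_nonneg_left a7 hb0.le)
    have h3 : F1 * (e1 * F1⁻¹ * X * (b * ((2 + η) * (1 + η)))) =
        e1 * (b * ((2 + η) * (1 + η) * X)) := by
      field_simp
    rw [h3]
    exact mul_le_mul b1 h2 hQ.le he1.le
  have h4 : F2⁻¹ ≥ c⁻¹ * M⁻¹ * (F1 / Q) ^ k := by
    rw [ge_iff_le, le_inv_comm₀ (by positivity) hF2]
    have h5 : (c⁻¹ * M⁻¹ * (F1 / Q) ^ k)⁻¹ = c * (M * Q ^ k) / F1 ^ k := by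
      rw [div_pow]
      field_simp
    rw [h5, le_div_iff₀ (by positivity)]
    exact hp
  have h6 : (gm - η) * (2 * X) ≤ M⁻¹ :=
    (mul_le_mul_of_nonneg_left a6 (by linarith)).trans a4
  have h7 : Real.exp (-η) * (c⁻¹ * ((gm - η) * (2 * X)) *
      (Real.exp (-η) / (e1 * F1⁻¹ * X * (b * ((2 + η) * (1 + η))))) ^ k) ≤ e2 * F2⁻¹ := by
    apply mul_le_mul d1 _ (by
      have : 0 ≤ gm - η := by linarith
      positivity) he2.le
    refine le_trans ?_ h4
    apply mul_le_mul _ (pow_le_pow_left₀ (by positivity) h1 k) (by positivity) (by positivity)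
    exact mul_le_mul_of_nonneg_left h6 (by positivity)
  refine le_trans ?_ h7
  have h8 : Real.exp (-η) * (c⁻¹ * ((gm - η) * (2 * X)) *
      (Real.exp (-η) / (e1 * F1⁻¹ * X * (b * ((2 + η) * (1 + η))))) ^ k) =
      (Real.exp (-η) * c⁻¹ * (gm - η) * 2 *
          (Real.exp (-η) / (b * ((2 + η) * (1 + η)))) ^ k) * (X * (1 / (e1 * F1⁻¹ * X)) ^ k) := by
    have h9 : Real.exp (-η) / (e1 * F1⁻¹ * X * (b * ((2 + η) * (1 + η)))) =
        (Real.exp (-η) / (b * ((2 + η) * (1 + η)))) * (1 / (e1 * F1⁻¹ * X)) := by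
      field_simp
    rw [h9, mul_pow]
    ring
  have h10 : θ * gm * X * (Real.pi ^ 2 / (12 * gm * (e1 * F1⁻¹ * X))) ^ k =
      (θ * gm * (Real.pi ^ 2 / (12 * gm)) ^ k) * (X * (1 / (e1 * F1⁻¹ * X)) ^ k) := by
    have h11 : Real.pi ^ 2 / (12 * gm * (e1 * F1⁻¹ * X)) =
        (Real.pi ^ 2 / (12 * gm)) * (1 / (e1 * F1⁻¹ * X)) := by
      field_simp
    rw [h11, mul_pow]
    ring
  rw [h8, h10]
  exact mul_le_mul_of_nonneg_right hφ (by positivity)

end Pool.Agent.H.MP_2e4794_nt.CE
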