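import Pool.Agent.H.MP_2e4794_nt.CE.Cmp

/-!
# The triangle inequalities

For `x` on the unit circle and `0 < s < 1`: `‖1 - s x‖ ^ 2 = (1 - s) ^ 2 + s ‖1 - x‖ ^ 2 =
(1 + s) ^ 2 - s ‖1 + x‖ ^ 2`. The function `N ↦ √(log (1 + κ N ^ 2))` is subadditive.
-/

set_option autoImplicit false

namespace Pool.Agent.H.MP_2e4794_nt.CE

open Finset Filter Topology
open Pool.Agent.H.MP_2e4794_nt.RL
open Pool.Agent.H.MP_2e4794_nt.ZM (prs mem_prs norm_cpow_le mertens_minus mertens_plus)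

/-! ### the function -/

lemma log_scale {y l : ℝ} (hy : 0 ≤ y) (hl : 0 ≤ l) (hl1 : l ≤ 1) :
    l * Real.log (1 + y) ≤ Real.log (1 + l * y) := by
  have h1 := rpow_one_add_le_one_add_mul_self (s := y) (by linarith) hl hl1
  have h2 : 0 < 1 + y := by linarith
  have h3 := Real.log_le_log (Real.rpow_pos_of_pos h2 l) h1
  rwa [Real.log_rpow h2] at h3

lemma log_mono {κ a c : ℝ} (hκ : 0 ≤ κ) (ha : 0 ≤ a) (hac : a ≤ c) :
    Real.log (1 + κ * a ^ 2) ≤ Real.log (1 + κ * c ^ 2) := by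
  apply Real.log_le_log (by positivity)
  have := mul_le_mul_of_nonneg_left (pow_le_pow_left₀ ha hac 2) hκ
  linarith

lemma sqrt_scale {κ a c : ℝ} (hκ : 0 ≤ κ) (ha : 0 ≤ a) (hac : a ≤ c) (hc : 0 < c) :
    a / c * Real.sqrt (Real.log (1 + κ * c ^ 2)) ≤ Real.sqrt (Real.log (1 + κ * a ^ 2)) := by
  have h1 : (a / c) ^ 2 * Real.log (1 + κ * c ^ 2) ≤ Real.log (1 + κ * a ^ 2) := by
    have h2 := log_scale (y := κ * c ^ 2) (l := (a / c) ^ 2) (by positivity) (by positivity)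
      (pow_le_one₀ (by positivity) ((div_le_one hc).2 hac))
    have h3 : (a / c) ^ 2 * (κ * c ^ 2) = κ * a ^ 2 := by
      field_simp
    rwa [h3] at h2
  have h4 : 0 ≤ a / c := by positivity
  calc a / c * Real.sqrt (Real.log (1 + κ * c ^ 2)) =
      Real.sqrt ((a / c) ^ 2 * Real.log (1 + κ * c ^ 2)) := by
        rw [Real.sqrt_mul (sq_nonneg _), Real.sqrt_sq h4]
    _ ≤ _ := Real.sqrt_le_sqrt h1

/-- subadditivity -/
lemma h_sub {κ a b c : ℝ} (hκ : 0 ≤ κ) (ha : 0 ≤ a) (hb : 0 ≤ b) (hc : 0 ≤ c) (h : c ≤ a + b) :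
    Real.sqrt (Real.log (1 + κ * c ^ 2)) ≤
      Real.sqrt (Real.log (1 + κ * a ^ 2)) + Real.sqrt (Real.log (1 + κ * b ^ 2)) := by
  have h1 : Real.sqrt (Real.log (1 + κ * c ^ 2)) ≤ Real.sqrt (Real.log (1 + κ * (a + b) ^ 2)) :=
    Real.sqrt_le_sqrt (log_mono hκ hc h)
  refine h1.trans ?_
  rcases (add_nonneg ha hb).eq_or_lt with h0 | h0
  · have ha0 : a = 0 := by linarith
    have hb0 : b = 0 := by linarith
    rw [ha0, hb0]
    simp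
  · have h2 := sqrt_scale hκ ha (show a ≤ a + b by linarith) h0
    have h3 := sqrt_scale hκ hb (show b ≤ a + b by linarith) h0
    have h4 : a / (a + b) * Real.sqrt (Real.log (1 + κ * (a + b) ^ 2)) +
        b / (a + b) * Real.sqrt (Real.log (1 + κ * (a + b) ^ 2)) =
        Real.sqrt (Real.log (1 + κ * (a + b) ^ 2)) := by
      rw [← add_mul, ← add_div, div_self h0.ne', one_mul]
    linarith

/-! ### one prime -/

lemma nsq_minus {x : ℂ} (hx : ‖x‖ = 1) (s : ℝ) :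
    ‖1 - (s : ℂ) * x‖ ^ 2 = (1 - s) ^ 2 + s * ‖1 - x‖ ^ 2 := by
  have h1 := sq1 hx s
  have h2 := sq1 hx 1
  rw [Complex.ofReal_one, one_mul] at h2
  rw [h1, h2]
  ring

lemma nsq_plus {x : ℂ} (hx : ‖x‖ = 1) (s : ℝ) :
    ‖1 - (s : ℂ) * x‖ ^ 2 = (1 + s) ^ 2 - s * ‖1 + x‖ ^ 2 := by
  have h1 := sq1 hx s
  have h2 := sq1 (x := -x) (by rw [norm_neg, hx]) 1
  rw [Complex.ofReal_one, one_mul, sub_neg_eq_add, Complex.neg_re] at h2
  rw [h1, h2]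
  ring

/-- the logarithm at a point of the first kind -/
noncomputable def Ld (s : ℝ) (x : ℂ) : ℝ := Real.log (‖1 - (s : ℂ) * x‖ ^ 2 / (1 - s) ^ 2)

/-- the logarithm at a point of the second kind -/
noncomputable def Le (s : ℝ) (x : ℂ) : ℝ := Real.log ((1 + s) ^ 2 / ‖1 - (s : ℂ) * x‖ ^ 2)

lemma Ld_eq {x : ℂ} (hx : ‖x‖ = 1) {s : ℝ} (hs1 : s ≤ 1 / 2) :
    Ld s x = Real.log (1 + s / (1 - s) ^ 2 * ‖1 - x‖ ^ 2) := by
  unfold Ld
  rw [nsq_minus hx]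
  congr 1
  have h1 : 1 - s ≠ 0 := by
    have : 0 < 1 - s := by linarith
    exact this.ne'
  field_simp

lemma sq_pos_of {x : ℂ} (hx : ‖x‖ = 1) {s : ℝ} (hs : 0 < s) (hs1 : s ≤ 1 / 2) :
    0 < ‖1 - (s : ℂ) * x‖ ^ 2 := by
  rw [nsq_minus hx]
  have : 0 < 1 - s := by linarith
  positivity

lemma Ld_nonneg {x : ℂ} (hx : ‖x‖ = 1) {s : ℝ} (hs : 0 < s) (hs1 : s ≤ 1 / 2) : 0 ≤ Ld s x := by
  rw [Ld_eq hx hs1]
  apply Real.log_nonneg
  have : 0 ≤ s / (1 - s) ^ 2 * ‖1 - x‖ ^ 2 := by positivity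
  linarith

lemma Le_nonneg {x : ℂ} (hx : ‖x‖ = 1) {s : ℝ} (hs : 0 < s) (hs1 : s ≤ 1 / 2) : 0 ≤ Le s x := by
  unfold Le
  apply Real.log_nonneg
  rw [le_div_iff₀ (sq_pos_of hx hs hs1), one_mul, nsq_plus hx]
  have : 0 ≤ s * ‖1 + x‖ ^ 2 := by positivity
  linarith

/-- comparison at a point of the second kind -/
lemma Le_ge {x : ℂ} (hx : ‖x‖ = 1) {s : ℝ} (hs : 0 < s) (hs1 : s ≤ 1 / 2) :
    Real.log (1 + s / (1 - s) ^ 2 * ‖1 + x‖ ^ 2) ≤ 9 * Le s x := by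
  have hm : 0 < (1 - s) ^ 2 := by
    have : 0 < 1 - s := by linarith
    positivity
  have hp : 0 < (1 + s) ^ 2 := by positivity
  have hq := sq_pos_of hx hs hs1
  have h1 : Real.log (1 + s / (1 - s) ^ 2 * ‖1 + x‖ ^ 2) ≤ s / (1 - s) ^ 2 * ‖1 + x‖ ^ 2 := by
    have h2 : 0 < 1 + s / (1 - s) ^ 2 * ‖1 + x‖ ^ 2 := by positivity
    have h3 := Real.log_le_sub_one_of_pos h2
    linarith
  have h4 : s / (1 + s) ^ 2 * ‖1 + x‖ ^ 2 ≤ Le s x := by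
    have h5 := Real.log_le_sub_one_of_pos (show 0 < ‖1 - (s : ℂ) * x‖ ^ 2 / (1 + s) ^ 2 by positivity)
    have h6 : Le s x = -Real.log (‖1 - (s : ℂ) * x‖ ^ 2 / (1 + s) ^ 2) := by
      unfold Le
      rw [← Real.log_inv, inv_div]
    have h7 : ‖1 - (s : ℂ) * x‖ ^ 2 / (1 + s) ^ 2 = 1 - s / (1 + s) ^ 2 * ‖1 + x‖ ^ 2 := by
      rw [nsq_plus hx]
      field_simp
    rw [h7] at h5 h6
    rw [h6]
    linarith
  have h8 : s / (1 - s) ^ 2 ≤ 9 * (s / (1 + s) ^ 2) := by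
    rw [mul_div_assoc', div_le_div_iff₀ hm hp]
    have h10 : (1 + s) ^ 2 ≤ 9 * (1 - s) ^ 2 := by nlinarith
    nlinarith [mul_le_mul_of_nonneg_left h10 hs.le]
  have h11 := mul_le_mul_of_nonneg_right h8 (sq_nonneg ‖1 + x‖)
  linarith

/-- comparison of the two logarithms -/
lemma Le_le {x : ℂ} (hx : ‖x‖ = 1) {s : ℝ} (hs : 0 < s) (hs1 : s ≤ 1 / 2) :
    Le s x ≤ Real.log (1 + s / (1 - s) ^ 2 * ‖1 + x‖ ^ 2) := by
  have hm : 0 < (1 - s) ^ 2 := by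
    have : 0 < 1 - s := by linarith
    positivity
  have h1s : 1 - s ≠ 0 := by
    have : 0 < 1 - s := by linarith
    exact this.ne'
  have hp : 0 < (1 + s) ^ 2 := by positivity
  have hq := sq_pos_of hx hs hs1
  have hN : ‖1 + x‖ ^ 2 ≤ 4 := by
    have h1 : ‖1 + x‖ ≤ 2 := by
      refine (norm_add_le _ _).trans ?_
      rw [norm_one, hx]
      norm_num
    nlinarith [norm_nonneg (1 + x)]
  unfold Le
  apply Real.log_le_log (by positivity)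
  rw [div_le_iff₀ hq, nsq_plus hx]
  rw [nsq_plus hx] at hq
  have h2 : (1 + s / (1 - s) ^ 2 * ‖1 + x‖ ^ 2) * ((1 + s) ^ 2 - s * ‖1 + x‖ ^ 2) - (1 + s) ^ 2 =
      s ^ 2 * ‖1 + x‖ ^ 2 * (4 - ‖1 + x‖ ^ 2) / (1 - s) ^ 2 := by
    field_simp
    ring
  have h3 : 0 ≤ s ^ 2 * ‖1 + x‖ ^ 2 * (4 - ‖1 + x‖ ^ 2) / (1 - s) ^ 2 := by
    have : 0 ≤ 4 - ‖1 + x‖ ^ 2 := by linarith
    positivity
  linarith

lemma norm_tri {x y : ℂ} (hx : ‖x‖ = 1) : ‖1 - x * y‖ ≤ ‖1 - x‖ + ‖1 - y‖ := by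
  have h1 : 1 - x * y = (1 - x) + x * (1 - y) := by ring
  rw [h1]
  refine (norm_add_le _ _).trans (le_of_eq ?_)
  rw [norm_mul, hx, one_mul]

lemma kp_nonneg {s : ℝ} (hs : 0 < s) : 0 ≤ s / (1 - s) ^ 2 := by positivity

lemma tri1 {x y : ℂ} (hx : ‖x‖ = 1) (hy : ‖y‖ = 1) {s : ℝ} (hs : 0 < s) (hs1 : s ≤ 1 / 2) :
    Real.sqrt (Ld s (x * y)) ≤ 1 * Real.sqrt (Ld s x) + 1 * Real.sqrt (Ld s y) := by
  rw [Ld_eq (by rw [norm_mul, hx, hy, one_mul]) hs1, Ld_eq hx hs1, Ld_eq hy hs1, one_mul, one_mul]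
  exact h_sub (kp_nonneg hs) (norm_nonneg _) (norm_nonneg _) (norm_nonneg _) (norm_tri hx)

lemma sqrt_Le {y : ℂ} (hy : ‖y‖ = 1) {s : ℝ} (hs : 0 < s) (hs1 : s ≤ 1 / 2) :
    Real.sqrt (Real.log (1 + s / (1 - s) ^ 2 * ‖1 + y‖ ^ 2)) ≤ 3 * Real.sqrt (Le s y) := by
  have h1 := Real.sqrt_le_sqrt (Le_ge hy hs hs1)
  rw [Real.sqrt_mul (by norm_num)] at h1
  have h2 : Real.sqrt 9 = 3 := by
    rw [show (9 : ℝ) = 3 ^ 2 by norm_num]
    exact Real.sqrt_sq (by norm_num)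
  rwa [h2] at h1

lemma tri2 {x y : ℂ} (hx : ‖x‖ = 1) (hy : ‖y‖ = 1) {s : ℝ} (hs : 0 < s) (hs1 : s ≤ 1 / 2) :
    Real.sqrt (Ld s (x * y)) ≤ 3 * Real.sqrt (Le s x) + 3 * Real.sqrt (Le s y) := by
  rw [Ld_eq (by rw [norm_mul, hx, hy, one_mul]) hs1]
  have h1 : ‖1 - x * y‖ ≤ ‖1 + x‖ + ‖1 + y‖ := by
    have h2 := norm_tri (x := -x) (y := -y) (by rw [norm_neg, hx])
    rwa [neg_mul_neg, sub_neg_eq_add, sub_neg_eq_add] at h2
  have h3 := h_sub (kp_nonneg hs) (norm_nonneg _) (norm_nonneg _) (norm_nonneg _) h1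
  exact h3.trans (add_le_add (sqrt_Le hx hs hs1) (sqrt_Le hy hs hs1))

lemma tri3 {x y : ℂ} (hx : ‖x‖ = 1) (hy : ‖y‖ = 1) {s : ℝ} (hs : 0 < s) (hs1 : s ≤ 1 / 2) :
    Real.sqrt (Le s (x * y)) ≤ 1 * Real.sqrt (Ld s x) + 3 * Real.sqrt (Le s y) := by
  have h0 := Real.sqrt_le_sqrt (Le_le (x := x * y) (by rw [norm_mul, hx, hy, one_mul]) hs hs1)
  refine h0.trans ?_
  have h1 : ‖1 + x * y‖ ≤ ‖1 - x‖ + ‖1 + y‖ := by
    have h2 := norm_tri (x := x) (y := -y) hx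
    rwa [mul_neg, sub_neg_eq_add, sub_neg_eq_add] at h2
  have h3 := h_sub (kp_nonneg hs) (norm_nonneg _) (norm_nonneg _) (norm_nonneg _) h1
  rw [← Ld_eq hx hs1] at h3
  rw [one_mul]
  exact h3.trans (add_le_add le_rfl (sqrt_Le hy hs hs1))

/-! ### sums over primes -/

/-- the inequality of Minkowski -/
lemma mink {ι : Type*} (S : Finset ι) {x y z : ι → ℝ} {c d : ℝ} (hc : 0 ≤ c) (hd : 0 ≤ d)
    (hx : ∀ i ∈ S, 0 ≤ x i) (hy : ∀ i ∈ S, 0 ≤ y i) (hz : ∀ i ∈ S, 0 ≤ z i)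
    (h : ∀ i ∈ S, Real.sqrt (x i) ≤ c * Real.sqrt (y i) + d * Real.sqrt (z i)) :
    Real.sqrt (∑ i ∈ S, x i) ≤ c * Real.sqrt (∑ i ∈ S, y i) + d * Real.sqrt (∑ i ∈ S, z i) := by
  have hcs : ∑ i ∈ S, Real.sqrt (y i) * Real.sqrt (z i) ≤
      Real.sqrt (∑ i ∈ S, y i) * Real.sqrt (∑ i ∈ S, z i) := by
    have h1 := Real.sum_mul_le_sqrt_mul_sqrt S (fun i => Real.sqrt (y i))
      (fun i => Real.sqrt (z i))
    have h2 : ∑ i ∈ S, Real.sqrt (y i) ^ 2 = ∑ i ∈ S, y i :=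
      sum_congr rfl fun i hi => Real.sq_sqrt (hy i hi)
    have h3 : ∑ i ∈ S, Real.sqrt (z i) ^ 2 = ∑ i ∈ S, z i :=
      sum_congr rfl fun i hi => Real.sq_sqrt (hz i hi)
    rwa [h2, h3] at h1
  have hy0 : 0 ≤ ∑ i ∈ S, y i := sum_nonneg hy
  have hz0 : 0 ≤ ∑ i ∈ S, z i := sum_nonneg hz
  apply Real.sqrt_le_iff.2
  refine ⟨by positivity, ?_⟩
  calc ∑ i ∈ S, x i ≤ ∑ i ∈ S, (c ^ 2 * y i + 2 * c * d * (Real.sqrt (y i) * Real.sqrt (z i)) +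
        d ^ 2 * z i) := by
        apply sum_le_sum
        intro i hi
        have h1 := pow_le_pow_left₀ (Real.sqrt_nonneg _) (h i hi) 2
        rw [Real.sq_sqrt (hx i hi)] at h1
        refine h1.trans (le_of_eq ?_)
        have h2 := Real.sq_sqrt (hy i hi)
        have h3 := Real.sq_sqrt (hz i hi)
        calc (c * Real.sqrt (y i) + d * Real.sqrt (z i)) ^ 2 =
            c ^ 2 * Real.sqrt (y i) ^ 2 + 2 * c * d * (Real.sqrt (y i) * Real.sqrt (z i)) +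
              d ^ 2 * Real.sqrt (z i) ^ 2 := by ring
          _ = _ := by rw [h2, h3]
    _ = c ^ 2 * ∑ i ∈ S, y i + 2 * c * d * ∑ i ∈ S, (Real.sqrt (y i) * Real.sqrt (z i)) +
        d ^ 2 * ∑ i ∈ S, z i := by
        rw [sum_add_distrib, sum_add_distrib, mul_sum, mul_sum, mul_sum]
    _ ≤ c ^ 2 * ∑ i ∈ S, y i + 2 * c * d * (Real.sqrt (∑ i ∈ S, y i) * Real.sqrt (∑ i ∈ S, z i)) +
        d ^ 2 * ∑ i ∈ S, z i := by
        have := mul_le_mul_of_nonneg_left hcs (show 0 ≤ 2 * c * d by positivity)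
        linarith
    _ = (c * Real.sqrt (∑ i ∈ S, y i) + d * Real.sqrt (∑ i ∈ S, z i)) ^ 2 := by
        have h2 := Real.sq_sqrt hy0
        have h3 := Real.sq_sqrt hz0
        calc _ = c ^ 2 * Real.sqrt (∑ i ∈ S, y i) ^ 2 +
            2 * c * d * (Real.sqrt (∑ i ∈ S, y i) * Real.sqrt (∑ i ∈ S, z i)) +
              d ^ 2 * Real.sqrt (∑ i ∈ S, z i) ^ 2 := by rw [h2, h3]
          _ = _ := by ring

lemma sum_Ld (Y : ℕ) (v : ℝ) : ∑ p ∈ prs 0 Y, Ld (1 / (p : ℝ)) (ee p v) =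
    2 * Real.log (FF Y v / MM Y) := by
  have h1 : (FF Y v / MM Y) ^ 2 = ∏ p ∈ prs 0 Y,
      (‖1 - (((1 / (p : ℝ) : ℝ)) : ℂ) * ee p v‖ ^ 2 / (1 - 1 / (p : ℝ)) ^ 2) := by
    unfold FF MM
    rw [← prod_div_distrib, ← prod_pow]
    apply prod_congr rfl
    intro p hp
    rw [mem_prs] at hp
    rw [div_pow, pcpow_eq hp.2.two_le]
  have h2 : 2 * Real.log (FF Y v / MM Y) = Real.log ((FF Y v / MM Y) ^ 2) := by
    rw [Real.log_pow]
    push_cast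
    ring
  rw [h2, h1, Real.log_prod]
  · rfl
  · intro p hp
    rw [mem_prs] at hp
    obtain ⟨h3, h4⟩ := prime_half hp.2
    have h5 := sq_pos_of (norm_ee hp.2.two_le v) h3 h4
    have h6 : 0 < 1 - 1 / (p : ℝ) := by linarith
    positivity

lemma sum_Le (Y : ℕ) (v : ℝ) : ∑ p ∈ prs 0 Y, Le (1 / (p : ℝ)) (ee p v) =
    2 * Real.log (QQ Y / FF Y v) := by
  have h1 : (QQ Y / FF Y v) ^ 2 = ∏ p ∈ prs 0 Y,
      ((1 + 1 / (p : ℝ)) ^ 2 / ‖1 - (((1 / (p : ℝ) : ℝ)) : ℂ) * ee p v‖ ^ 2) := by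
    unfold FF QQ
    rw [← prod_div_distrib, ← prod_pow]
    apply prod_congr rfl
    intro p hp
    rw [mem_prs] at hp
    rw [div_pow, pcpow_eq hp.2.two_le]
  have h2 : 2 * Real.log (QQ Y / FF Y v) = Real.log ((QQ Y / FF Y v) ^ 2) := by
    rw [Real.log_pow]
    push_cast
    ring
  rw [h2, h1, Real.log_prod]
  · rfl
  · intro p hp
    rw [mem_prs] at hp
    obtain ⟨h3, h4⟩ := prime_half hp.2
    have h5 := sq_pos_of (norm_ee hp.2.two_le v) h3 h4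
    positivity

lemma half_sqrt {x y z c d : ℝ}
    (h : Real.sqrt (2 * x) ≤ c * Real.sqrt (2 * y) + d * Real.sqrt (2 * z)) :
    Real.sqrt x ≤ c * Real.sqrt y + d * Real.sqrt z := by
  rw [Real.sqrt_mul (by norm_num), Real.sqrt_mul (by norm_num), Real.sqrt_mul (by norm_num)] at h
  have h2 : 0 < Real.sqrt 2 := Real.sqrt_pos.2 (by norm_num)
  have h3 : Real.sqrt 2 * Real.sqrt x ≤ Real.sqrt 2 * (c * Real.sqrt y + d * Real.sqrt z) := by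
    linarith
  exact le_of_mul_le_mul_left h3 h2

/-- first kind + first kind -/
lemma ptri1 (Y : ℕ) (t u : ℝ) : Real.sqrt (Real.log (FF Y (t + u) / MM Y)) ≤
    1 * Real.sqrt (Real.log (FF Y t / MM Y)) + 1 * Real.sqrt (Real.log (FF Y u / MM Y)) := by
  apply half_sqrt
  rw [← sum_Ld, ← sum_Ld, ← sum_Ld]
  apply mink _ zero_le_one zero_le_one
  all_goals
    intro p hp
    rw [mem_prs] at hp
    obtain ⟨h3, h4⟩ := prime_half hp.2
    have h2 := hp.2.two_le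
  · exact Ld_nonneg (norm_ee h2 _) h3 h4
  · exact Ld_nonneg (norm_ee h2 _) h3 h4
  · exact Ld_nonneg (norm_ee h2 _) h3 h4
  · rw [ee_add h2]
    exact tri1 (norm_ee h2 _) (norm_ee h2 _) h3 h4

/-- second kind + second kind -/
lemma ptri2 (Y : ℕ) (t u : ℝ) : Real.sqrt (Real.log (FF Y (t + u) / MM Y)) ≤
    3 * Real.sqrt (Real.log (QQ Y / FF Y t)) + 3 * Real.sqrt (Real.log (QQ Y / FF Y u)) := by
  apply half_sqrt
  rw [← sum_Ld, ← sum_Le, ← sum_Le]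
  apply mink _ (by norm_num) (by norm_num)
  all_goals
    intro p hp
    rw [mem_prs] at hp
    obtain ⟨h3, h4⟩ := prime_half hp.2
    have h2 := hp.2.two_le
  · exact Ld_nonneg (norm_ee h2 _) h3 h4
  · exact Le_nonneg (norm_ee h2 _) h3 h4
  · exact Le_nonneg (norm_ee h2 _) h3 h4
  · rw [ee_add h2]
    exact tri2 (norm_ee h2 _) (norm_ee h2 _) h3 h4

/-- first kind + second kind -/
lemma ptri3 (Y : ℕ) (t u : ℝ) : Real.sqrt (Real.log (QQ Y / FF Y (t + u))) ≤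
    1 * Real.sqrt (Real.log (FF Y t / MM Y)) + 3 * Real.sqrt (Real.log (QQ Y / FF Y u)) := by
  apply half_sqrt
  rw [← sum_Ld, ← sum_Le, ← sum_Le]
  apply mink _ (by norm_num) (by norm_num)
  all_goals
    intro p hp
    rw [mem_prs] at hp
    obtain ⟨h3, h4⟩ := prime_half hp.2
    have h2 := hp.2.two_le
  · exact Le_nonneg (norm_ee h2 _) h3 h4
  · exact Ld_nonneg (norm_ee h2 _) h3 h4
  · exact Le_nonneg (norm_ee h2 _) h3 h4
  · rw [ee_add h2]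
    exact tri3 (norm_ee h2 _) (norm_ee h2 _) h3 h4

/-! ### the zeta function -/

/-- the logarithm of the bound of RH for `|ζ(1+iu)|` divided by the value -/
noncomputable def aa (T u : ℝ) : ℝ :=
  Real.log (2 * gm * Real.log (Real.log T) / ‖riemannZeta (1 + u * Complex.I)‖)

/-- the logarithm of the bound of RH for `1/|ζ(1+iu)|` divided by the value -/
noncomputable def bb (T u : ℝ) : ℝ :=
  Real.log (12 / Real.pi ^ 2 * gm * Real.log (Real.log T) * ‖riemannZeta (1 + u * Complex.I)‖)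

lemma aa_eq (T u : ℝ) : aa T u = -Real.log (AA T u) := by
  unfold aa AA
  rw [← Real.log_inv, inv_div]

lemma bb_eq (T u : ℝ) : bb T u = -Real.log (BB T u) := by
  unfold bb BB
  rw [← Real.log_inv, inv_div, one_div, div_inv_eq_mul]

/-- **The triangle inequalities, under RH.** -/
theorem triangle (RH : RiemannHypothesis) {ε : ℝ} (hε : 0 < ε) :
    ∃ T0 : ℝ, 3 ≤ T0 ∧ ∀ T : ℝ, T0 ≤ T → ∀ t u : ℝ, T0 ≤ |t| → |t| ≤ T → T0 ≤ |u| → |u| ≤ T →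
      T0 ≤ |t + u| → |t + u| ≤ T →
        Real.sqrt (aa T (t + u) - ε) ≤ Real.sqrt (aa T t + ε) + Real.sqrt (aa T u + ε) ∧
        Real.sqrt (aa T (t + u) - ε) ≤
          3 * Real.sqrt (bb T t + ε) + 3 * Real.sqrt (bb T u + ε) ∧
        Real.sqrt (bb T (t + u) - ε) ≤ Real.sqrt (aa T t + ε) + 3 * Real.sqrt (bb T u + ε) := by
  obtain ⟨T0, hT0, h⟩ := compare RH hε
  refine ⟨T0, hT0, fun T hT t u ht1 ht2 hu1 hu2 hv1 hv2 => ?_⟩
  obtain ⟨-, Y, hY⟩ := h T hT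
  have key : ∀ v : ℝ, T0 ≤ |v| → |v| ≤ T →
      (aa T v - ε ≤ Real.log (FF Y v / MM Y) ∧ Real.log (FF Y v / MM Y) ≤ aa T v + ε) ∧
      (bb T v - ε ≤ Real.log (QQ Y / FF Y v) ∧ Real.log (QQ Y / FF Y v) ≤ bb T v + ε) := by
    intro v hv1 hv2
    obtain ⟨a1, a2, a3, a4⟩ := hY v hv1 hv2
    have hF := FF_pos Y v
    have hM := MM_pos Y
    have hQ := QQ_pos Y
    have hE := Real.exp_pos (-ε)
    have hE' := Real.exp_pos ε
    have e1 : Real.log (FF Y v / MM Y) = -Real.log (MM Y / FF Y v) := by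
      rw [← Real.log_inv, inv_div]
    have e2 : Real.log (QQ Y / FF Y v) = -Real.log (FF Y v / QQ Y) := by
      rw [← Real.log_inv, inv_div]
    have p1 : 0 < MM Y / FF Y v := by positivity
    have p2 : 0 < FF Y v / QQ Y := by positivity
    have l1 := Real.log_le_log (by positivity) a1
    have l2 := Real.log_le_log ((by positivity : 0 < Real.exp (-ε) * (MM Y / FF Y v)).trans_le a1) a2
    have l3 := Real.log_le_log (by positivity) a3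
    have l4 := Real.log_le_log ((by positivity : 0 < Real.exp (-ε) * (FF Y v / QQ Y)).trans_le a3) a4
    rw [Real.log_mul hE.ne' p1.ne', Real.log_exp] at l1
    rw [Real.log_mul hE'.ne' p1.ne', Real.log_exp] at l2
    rw [Real.log_mul hE.ne' p2.ne', Real.log_exp] at l3
    rw [Real.log_mul hE'.ne' p2.ne', Real.log_exp] at l4
    rw [aa_eq, bb_eq, e1, e2]
    refine ⟨⟨?_, ?_⟩, ?_, ?_⟩ <;> linarith
  obtain ⟨⟨at1, at2⟩, bt1, bt2⟩ := key t ht1 ht2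
  obtain ⟨⟨au1, au2⟩, bu1, bu2⟩ := key u hu1 hu2
  obtain ⟨⟨av1, av2⟩, bv1, bv2⟩ := key (t + u) hv1 hv2
  have i1 := ptri1 Y t u
  have i2 := ptri2 Y t u
  have i3 := ptri3 Y t u
  have s1 := Real.sqrt_le_sqrt at2
  have s2 := Real.sqrt_le_sqrt au2
  have s3 := Real.sqrt_le_sqrt bt2
  have s4 := Real.sqrt_le_sqrt bu2
  have s5 := Real.sqrt_le_sqrt av1
  have s6 := Real.sqrt_le_sqrt bv1
  refine ⟨?_, ?_, ?_⟩ <;> linarith

end Pool.Agent.H.MP_2e4794_nt.CE
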