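import Pool.Agent.H.MP_2e4794_nt.RL.WT
import Pool.Agent.H.MP_2e4794_nt.RL.EV
import Pool.Agent.H.MP_2e4794_nt.RL.FN
import Pool.Agent.H.MP_2e4794_nt.CE.Alg

/-!
# The products over the primes at `t` and at `2 t`
-/

set_option autoImplicit false

namespace Pool.Agent.H.MP_2e4794_nt.CE

open Finset Filter Topology
open Pool.Agent.H.MP_2e4794_nt.RL
open Pool.Agent.H.MP_2e4794_nt.ZM (prs mem_prs norm_cpow_le mertens_minus mertens_plus)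

/-- the product over the primes up to `Y` -/
noncomputable def FF (Y : ℕ) (u : ℝ) : ℝ :=
  ∏ p ∈ prs 0 Y, ‖1 - (p : ℂ) ^ (-((1 : ℂ) + u * Complex.I))‖

/-- the product of the `1 - 1/p` -/
noncomputable def MM (Y : ℕ) : ℝ := ∏ p ∈ prs 0 Y, (1 - 1 / (p : ℝ))

/-- the product of the `1 + 1/p` -/
noncomputable def QQ (Y : ℕ) : ℝ := ∏ p ∈ prs 0 Y, (1 + 1 / (p : ℝ))

lemma exp_SY_re (Y : ℕ) (u : ℝ) : Real.exp (SY Y (1 + u * Complex.I)).re = (FF Y u)⁻¹ := by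
  rw [← Complex.norm_exp, exp_SY Y (by simp), norm_prod, FF, ← Finset.prod_inv_distrib]
  exact prod_congr rfl fun p _ => norm_inv _

lemma FF_pos (Y : ℕ) (u : ℝ) : 0 < FF Y u := by
  have h := Real.exp_pos (SY Y (1 + u * Complex.I)).re
  rw [exp_SY_re] at h
  exact inv_pos.1 h

lemma MM_pos (Y : ℕ) : 0 < MM Y := by
  unfold MM
  apply prod_pos
  intro p hp
  rw [mem_prs] at hp
  have h2 : (2 : ℝ) ≤ p := by exact_mod_cast hp.2.two_le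
  have h3 : 1 / (p : ℝ) ≤ 1 / 2 := one_div_le_one_div_of_le (by norm_num) h2
  linarith

lemma QQ_pos (Y : ℕ) : 0 < QQ Y := by
  unfold QQ
  apply prod_pos
  intro p _
  positivity

lemma norm_ee {p : ℕ} (hp : 2 ≤ p) (t : ℝ) : ‖ee p t‖ = 1 := by
  unfold ee
  rw [Complex.norm_natCast_cpow_of_pos (by omega)]
  simp

lemma ee_two {p : ℕ} (t : ℝ) : ee p (2 * t) = ee p t ^ 2 := by
  unfold ee
  rw [← Complex.cpow_nat_mul]
  congr 1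
  push_cast
  ring

lemma fac1 {p : ℕ} (hp : 2 ≤ p) (t : ℝ) :
    ‖1 - (p : ℂ) ^ (-((1 : ℂ) + t * Complex.I))‖ ^ 2 =
      (1 + 1 / (p : ℝ)) ^ 2 - 2 * (1 / p) * (1 + (ee p t).re) := by
  rw [pcpow_eq hp]
  exact sq1 (norm_ee hp t) _

lemma fac2 {p : ℕ} (hp : 2 ≤ p) (t : ℝ) :
    ‖1 - (p : ℂ) ^ (-((1 : ℂ) + ((2 * t : ℝ) : ℂ) * Complex.I))‖ ^ 2 =
      (1 - 1 / (p : ℝ)) ^ 2 + 4 * (1 / p) * ((1 + (ee p t).re) * (2 - (1 + (ee p t).re))) := by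
  rw [pcpow_eq hp, ee_two]
  exact sq2 (norm_ee hp t) _

/-- the product of the inequalities -/
lemma prod_ineq (k : ℕ) (κ : ℕ → ℝ)
    (hκ : ∀ p : ℕ, p.Prime → ∀ d : ℝ, 0 ≤ d → d ≤ 2 →
      ((1 - 1 / (p : ℝ)) ^ 2 + 4 * (1 / p) * (d * (2 - d))) *
        ((1 + 1 / (p : ℝ)) ^ 2 - 2 * (1 / p) * d) ^ k ≤
      κ p * ((1 - 1 / (p : ℝ)) ^ 2 * ((1 + 1 / (p : ℝ)) ^ 2) ^ k)) (Y : ℕ) (t : ℝ) :
    (FF Y (2 * t) * FF Y t ^ k) ^ 2 ≤ (∏ p ∈ prs 0 Y, κ p) * (MM Y * QQ Y ^ k) ^ 2 := by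
  have h1 : (FF Y (2 * t) * FF Y t ^ k) ^ 2 = ∏ p ∈ prs 0 Y,
      (‖1 - (p : ℂ) ^ (-((1 : ℂ) + ((2 * t : ℝ) : ℂ) * Complex.I))‖ ^ 2 *
        (‖1 - (p : ℂ) ^ (-((1 : ℂ) + t * Complex.I))‖ ^ 2) ^ k) := by
    unfold FF
    rw [prod_mul_distrib, prod_pow, prod_pow, prod_pow]
    ring
  have h2 : (∏ p ∈ prs 0 Y, κ p) * (MM Y * QQ Y ^ k) ^ 2 = ∏ p ∈ prs 0 Y,
      (κ p * ((1 - 1 / (p : ℝ)) ^ 2 * ((1 + 1 / (p : ℝ)) ^ 2) ^ k)) := by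
    unfold MM QQ
    rw [prod_mul_distrib, prod_mul_distrib, prod_pow, prod_pow, prod_pow]
    ring
  rw [h1, h2]
  apply Finset.prod_le_prod
  · intro p _
    positivity
  · intro p hp
    rw [mem_prs] at hp
    rw [fac2 hp.2.two_le, fac1 hp.2.two_le]
    have h3 : |(ee p t).re| ≤ 1 := by
      have := Complex.abs_re_le_norm (ee p t)
      rwa [norm_ee hp.2.two_le] at this
    rw [abs_le] at h3
    exact hκ p hp.2 _ (by linarith) (by linarith)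

/-- exponent 36 -/
lemma prod36 (Y : ℕ) (t : ℝ) : FF Y (2 * t) * FF Y t ^ 36 ≤ 1 * (MM Y * QQ Y ^ 36) := by
  have h1 := prod_ineq 36 (fun _ => 1) (fun p hp d hd hd2 => by
    rw [one_mul]
    exact prime36 hp hd hd2) Y t
  rw [prod_const_one, one_mul] at h1
  rw [one_mul]
  have h2 : 0 ≤ MM Y * QQ Y ^ 36 := (mul_pos (MM_pos Y) (pow_pos (QQ_pos Y) 36)).le
  exact (abs_le_of_sq_le_sq' h1 h2).2

/-- exponent 10 -/
lemma prod10 {Y : ℕ} (hY : 3 ≤ Y) (t : ℝ) :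
    FF Y (2 * t) * FF Y t ^ 10 ≤ 13234 / 10000 * (MM Y * QQ Y ^ 10) := by
  have h1 := prod_ineq 10 kap (fun p hp d hd hd2 => prime10 hp hd hd2) Y t
  have h3 : ∏ p ∈ prs 0 Y, kap p = 16245 / 10000 * (1078 / 1000) := by
    have h4 : ({2, 3} : Finset ℕ) ⊆ prs 0 Y := by
      intro p hp
      rw [mem_insert, mem_singleton] at hp
      rw [mem_prs]
      rcases hp with rfl | rfl
      · exact ⟨⟨by norm_num, by omega⟩, by norm_num⟩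
      · exact ⟨⟨by norm_num, by omega⟩, by norm_num⟩
    rw [← prod_subset h4]
    · rw [prod_pair (by norm_num)]
      norm_num [kap]
    · intro p _ hp
      rw [mem_insert, mem_singleton, not_or] at hp
      unfold kap
      rw [if_neg hp.1, if_neg hp.2]
  rw [h3] at h1
  have h2 : 0 ≤ MM Y * QQ Y ^ 10 := (mul_pos (MM_pos Y) (pow_pos (QQ_pos Y) 10)).le
  refine (abs_le_of_sq_le_sq' (h1.trans ?_) (by positivity)).2
  rw [mul_pow (13234 / 10000 : ℝ)]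
  apply mul_le_mul_of_nonneg_right _ (sq_nonneg _)
  norm_num

end Pool.Agent.H.MP_2e4794_nt.CE
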